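import Pool.Agent.MP_ecfd11_lc.H13X.Calc

/-!
Under simultaneous stationary reflection an exact cardinal makes large regular cardinals strongly
measurable in HOD.
-/

set_option synthInstance.maxSize 4000

namespace Pool.Agent.MP_ecfd11_lc.H13X

open Pool.Agent.MP_ecfd11_lc.H20

universe u

open ZFSet Cardinal Function

theorem mem_V_of_mem {a l : ZFSet.{u}} (h : a ∈ l) : a ∈ vonNeumann l.rank :=
  mem_vonNeumann.2 (rank_lt_of_mem h)

theorem mem_of_mem_V {a l : ZFSet.{u}} (ha : a.IsOrdinal) (hl : l.IsOrdinal)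
    (h : a ∈ vonNeumann l.rank) : a ∈ l :=
  (ha.rank_lt_iff_mem hl).1 (mem_vonNeumann.1 h)

/-- An exact ordinal is a limit ordinal, with a cofinal sequence of length `ω`. -/
theorem Exact1.seq {L : ZFSet.{u}} (hL : Exact1 L) : ∃ H : ℕ → ZFSet.{u}, (∀ n, H n ∈ L) ∧
    ∀ b ∈ L, ∃ n, b ∈ H n := by
  obtain ⟨e, k, h1, h2, -, h4⟩ := hL.2 ∅ (od_iff.2 inferInstance) (empty_subset _)
  have h5 := h1.el (isTransitive_vonNeumann _)
  exact ⟨fun n => e^[n] k, fun n => mem_of_mem_V ((h5.iter n).ord (hL.1.mem h2)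
    (mem_V_of_mem h2)) hL.1 ((h5.iter n).map k (mem_V_of_mem h2)), h4⟩

theorem pair_mem_V_of_mem {L x y : ZFSet.{u}} (hL : L.IsOrdinal)
    (h : ∀ b ∈ L, ∃ c ∈ L, b ∈ c) (hx : x ∈ L) (hy : y ∈ L) : pair x y ∈ vonNeumann L.rank := by
  obtain ⟨b, hb, h1, h2⟩ := exists_bound2 hL hx hy
  obtain ⟨c, hc, h3⟩ := h b hb
  obtain ⟨d, hd, h4⟩ := h c hc
  have e1 : ∀ z, z ⊆ b → rank z < rank c := fun z hz =>
    (rank_mono hz).trans_lt (rank_lt_of_mem h3)
  have e2 : ∀ z : ZFSet.{u}, (∀ w ∈ z, w = x ∨ w = y) → rank z < rank d := fun z hz =>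
    (rank_le_iff.2 fun w hw => by
      rcases hz w hw with rfl | rfl
      exacts [e1 _ h1, e1 _ h2]).trans_lt (rank_lt_of_mem h4)
  refine mem_vonNeumann.2 ((rank_le_iff.2 fun z hz => ?_).trans_lt (rank_lt_of_mem hd))
  rcases mem_pair.1 hz with rfl | rfl
  · exact e2 _ fun w hw => Or.inl (mem_singleton.1 hw)
  · exact e2 _ fun w hw => mem_pair.1 hw

/-- No ordinal definable cofinal subset of an exact ordinal has small order type. -/
theorem Exact1.no_cof {L X : ZFSet.{u}} (hL : Exact1 L) (x0 : OD Set.univ X) (x1 : X ⊆ L)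
    (x2 : ∀ b ∈ L, ∃ x ∈ X, b ∈ x) (x3 : img (colIn X) X ∈ L) : False := by
  have hXo : ∀ x ∈ X, x.IsOrdinal := fun x hx => hL.1.mem (x1 hx)
  have hlim : ∀ b ∈ L, ∃ c ∈ L, b ∈ c := fun b hb => by
    obtain ⟨x, h1, h2⟩ := x2 b hb
    exact ⟨x, x1 h1, h2⟩
  have hr : ∀ x ∈ X, colIn X x ∈ L := fun x hx => hL.1.mem_trans (mem_img.2 ⟨x, hx, rfl⟩) x3
  have : Tm Set.univ On (fun _ => X) := od_iff.1 x0
  obtain ⟨e, k, h1, h2, h3, h4⟩ := hL.2 (gr (fun x => colIn X x) X) (od_iff.2 inferInstance)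
    fun z hz => by
      obtain ⟨x, hx, rfl⟩ := mem_img.1 hz
      exact pair_mem_V_of_mem hL.1 hlim (x1 hx) (hr x hx)
  have h5 := h1.el (isTransitive_vonNeumann _)
  have h6 : ∀ x ∈ X, e x ∈ X ∧ colIn X (e x) = e (colIn X x) := fun x hx => by
    have p := pair_mem_V_of_mem hL.1 hlim (x1 hx) (hr x hx)
    have := (h1.pres p).1 (pair_mem_gr.2 ⟨hx, rfl⟩)
    rwa [h5.pair p, pair_mem_gr] at this
  have h7 : ∀ y, k ∈ y → y ∈ L → ∀ n, e^[n] k ∈ e^[n] y := fun y hy hy' n =>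
    (h5.iter n).mem hy (mem_V_of_mem hy')
  by_cases hk : k ∈ img (colIn X) X
  · obtain ⟨n, hn⟩ := h4 _ x3
    have h8 : ∀ n, e^[n] k ∈ img (colIn X) X := fun n => by
      induction n with
      | zero => exact hk
      | succ n ih =>
        obtain ⟨x, hx, ex⟩ := mem_img.1 ih
        rw [iterate_succ_apply', ← ex, ← (h6 x hx).2]
        exact mem_img.2 ⟨_, (h6 x hx).1, rfl⟩
    exact mem_asymm hn (h8 n)
  · have h8 : img (colIn X) X ⊆ k :=
      ((hL.1.mem h2).notMem_iff_subset (img_colIn_ord hXo)).1 hk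
    obtain ⟨x, hx, h9⟩ := x2 k h2
    have h10 : e x = x := colIn_inj hXo (h6 x hx).1 hx
      ((h6 x hx).2.trans (h3 _ (h8 (mem_img.2 ⟨x, hx, rfl⟩))))
    obtain ⟨n, hn⟩ := h4 x (x1 hx)
    have h11 := h7 x h9 (x1 hx) n
    rw [iterate_fixed h10] at h11
    exact mem_asymm hn h11

theorem conv {d l L : ZFSet.{u}} (hd : Reflects d l) (hdL : d ∈ L) (hL : Exact1 L)
    (hl : Regular Set.univ l) (hc : 2 ^ card L < card l) : StronglyMeasurable Set.univ l := by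
  have hLl : L ∈ l := hl.mem_of_card_lt hL.1 ((cantor _).trans hc)
  refine ⟨hl, L, hLl, fun e => notMem_empty d (e ▸ hdL), ?_, ?_⟩
  · rintro ⟨f, -, f1, f2⟩
    refine hc.not_ge ?_
    rw [← card_powerset]
    exact card_le_of_inj (app f) (fun x hx => f1.app_mem' hx) fun x hx y hy e =>
      f2 x y _ (f1.app_mem hx) (e ▸ f1.app_mem hy)
  rintro ⟨s, s0, s1, s2, s3, -⟩
  have : Tm Set.univ On (fun _ => s) := od_iff.1 s0.self
  have : Tm Set.univ On (fun _ => L) := Tm.ofOrd hL.1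
  obtain ⟨H, a1, a2⟩ := hL.seq
  obtain ⟨b, hb, ⟨c, c1, c2⟩, b3⟩ := hd (fun n => app s (H n)) fun n =>
    s2 _ _ (s1.app_mem (a1 n))
  have : Tm Set.univ On (fun _ => b) := Tm.ofOrd (hl.1.mem hb)
  have ho := img_colIn_ord (b := L.sep fun i => Stat Set.univ b (app s i ∩ b))
    fun x hx => hL.1.mem (mem_sep.1 hx).1
  refine hL.no_cof (X := L.sep fun i => Stat Set.univ b (app s i ∩ b)) (od_iff.2 inferInstance)
    sep_subset (fun x hx => ?_) (by_contra fun h3 => ?_)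
  · obtain ⟨n, hn⟩ := a2 x hx
    exact ⟨H n, mem_sep.2 ⟨a1 n, b3 n⟩, hn⟩
  · have h4 : ∀ i ∈ L.sep fun i => Stat Set.univ b (app s i ∩ b), ∃ z ∈ app s i, z ∈ c :=
      fun i hi => ((mem_sep.1 hi).2.2 c trivial c1).imp fun z hz => ⟨(mem_inter.1 hz.1).1, hz.2⟩
    choose! Y y1 y2 using h4
    refine c2.not_ge ((card_mono (hL.1.subset_of_mem hdL)).trans ((card_mono
      ((ho.notMem_iff_subset hL.1).1 h3)).trans ((card_img_le _ _).trans
      (card_le_of_inj Y y2 fun i hi j hj e => ?_))))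
    by_contra h5
    exact s3 i _ j _ (s1.app_mem (mem_sep.1 hi).1) (s1.app_mem (mem_sep.1 hj).1) h5 _ (y1 i hi)
      (e ▸ y1 j hj)

/-- Strong compactness implies the reflection hypothesis. -/
theorem reflects_of_stronglyCompact {d l : ZFSet.{u}} (hd : StronglyCompact d l) (hdl : d ∈ l)
    (hl : Regular Set.univ l) : Reflects d l := by
  intro S hS
  have hom : card om < card d := hd.1.card_lt hd.1.2.1
  let Z : ZFSet.{u} := range fun n : ULift.{u} ℕ => S n.down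
  have hZ : card Z ≤ card om := by
    rw [card_om]
    simpa using lift_card_range_le (f := fun n : ULift.{u} ℕ => S n.down)
  have h3 := hd.refl hdl hl Z (fun x => x) (hZ.trans_lt hom) fun i hi => by
    obtain ⟨n, rfl⟩ := mem_range.1 hi
    obtain ⟨t1, t2⟩ := hS n.down
    refine ⟨fun y hy => ?_, (stat_iff.1 t1).2⟩
    obtain ⟨-, F, -, f1, f2⟩ := t2 y hy
    refine ⟨img (app F) om, fun z hz => ?_, not_le.2 ((card_img_le _ _).trans_lt hom),
      fun x hx => ?_⟩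
    · obtain ⟨n, hn, rfl⟩ := mem_img.1 hz
      exact f1.app_mem' hn
    · obtain ⟨n, z, h4, h5⟩ := f2 x hx
      exact ⟨z, mem_img.2 ⟨n, (pair_mem_prod.1 (f1.1 h4)).1, f1.app_eq h4⟩, h5⟩
  obtain ⟨b, hb⟩ : ∃ b, b ∈ l.sep fun b => Sm d b ∧ Unc b ∧ ∀ i ∈ Z, ¬ Null b i := by
    by_contra h4
    exact h3 ((unc_of_regular hl).null_empty.mono fun x hx _ => absurd ⟨x, hx⟩ h4)
  obtain ⟨b0, b1, b2, b3⟩ := mem_sep.1 hb
  exact ⟨b, b0, b1.exists_club hd.1 b2.1, fun n => stat_iff.2 ⟨fun x hx => (mem_inter.1 hx).2,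
    fun h => b3 _ (mem_range.2 ⟨⟨n⟩, rfl⟩) (h.mono fun x h1 h2 => mem_inter.2 ⟨h1, h2⟩)⟩⟩

end Pool.Agent.MP_ecfd11_lc.H13X
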