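import Pool.Agent.MP_ecfd11_lc.H13X.Calc

/-!
The critical point of a `Σ₁`-elementary embedding `V_m → V_m`.
-/

namespace Pool.Agent.MP_ecfd11_lc.H13X

universe u

open ZFSet Cardinal Order

theorem pair_mem_V {o : Ordinal.{u}} (ho : ∀ a < o, succ a < o) {x y : ZFSet.{u}}
    (hx : x ∈ V_ o) (hy : y ∈ V_ o) : pair x y ∈ V_ o := by
  rw [mem_vonNeumann] at *
  rw [pair, rank_pair, rank_singleton, rank_pair]
  exact max_lt (ho _ (ho _ hx)) (ho _ (max_lt (ho _ hx) (ho _ hy)))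

theorem ord_mem_V {a l : ZFSet.{u}} (h : a ∈ l) : a ∈ V_ l.rank :=
  mem_vonNeumann.2 (rank_lt_of_mem h)

theorem mem_of_rank {l : ZFSet.{u}} (hl : l.IsOrdinal) {o : Ordinal.{u}} (h : o < l.rank) :
    o.toZFSet ∈ l :=
  ((isOrdinal_toZFSet o).rank_lt_iff_mem hl).1 (by rwa [Ordinal.rank_toZFSet])

/-- The graph of `a ↦ V_a` on `t`. -/
noncomputable def hier (t : ZFSet.{u}) : ZFSet.{u} := gr (fun a => V_ a.rank) t

/-- The recursion equation of the cumulative hierarchy. -/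
def RecH (M h : ZFSet.{u}) : Prop :=
  ∀ a Y, pair a Y ∈ h → ∀ x, x ∈ M → (x ∈ Y ↔ ∃ b, b ∈ a ∧ ∃ Z, pair b Z ∈ h ∧ x ⊆ Z)

theorem RecH.eq {m : Ordinal.{u}} {h t : ZFSet.{u}} (hr : RecH (V_ m) h)
    (hh : h ∈ V_ m) (ht : t.IsOrdinal) (tot : ∀ a, a ∈ t → ∃ Y, pair a Y ∈ h) :
    ∀ a, a ∈ t → ∀ Y, pair a Y ∈ h → Y = V_ a.rank := by
  intro a
  have tr := isTransitive_vonNeumann m
  induction a using ZFSet.inductionOn with
  | _ a ih =>
  intro ha Y hY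
  have hp := tr.mem_trans hY hh
  ext x
  constructor
  · intro hx
    obtain ⟨b, hb, Z, hZ, hxZ⟩ := (hr a Y hY x (tr.mem_trans hx (snd_in tr hp))).1 hx
    rw [ih b hb (ht.mem_trans hb ha) Z hZ, subset_vonNeumann] at hxZ
    exact mem_vonNeumann.2 (hxZ.trans_lt (rank_lt_of_mem hb))
  · intro hx
    rw [mem_vonNeumann] at hx
    have hb := mem_of_rank (ht.mem ha) hx
    obtain ⟨Z, hZ⟩ := tot _ (ht.mem_trans hb ha)
    refine (hr a Y hY x (mem_vonNeumann.2 (hx.trans (mem_vonNeumann.1 (fst_in tr hp))))).2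
      ⟨_, hb, Z, hZ, ?_⟩
    rw [ih _ hb (ht.mem_trans hb ha) Z hZ, Ordinal.rank_toZFSet]
    exact subset_vonNeumann_self x

theorem recH_hier (M : ZFSet.{u}) {t : ZFSet.{u}} (ht : t.IsOrdinal) : RecH M (hier t) := by
  intro a Y hY x _
  obtain ⟨ha, rfl⟩ := pair_mem_gr.1 hY
  constructor
  · intro hx
    have hb := mem_of_rank (ht.mem ha) (mem_vonNeumann.1 hx)
    refine ⟨_, hb, _, pair_mem_gr.2 ⟨ht.mem_trans hb ha, rfl⟩, ?_⟩
    rw [Ordinal.rank_toZFSet]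
    exact subset_vonNeumann_self x
  · rintro ⟨b, hb, Z, hZ, hx⟩
    obtain ⟨-, rfl⟩ := pair_mem_gr.1 hZ
    exact mem_vonNeumann.2 ((subset_vonNeumann.1 hx).trans_lt (rank_lt_of_mem hb))

/-- `j : V_m → V_m` is `Σ₁`-elementary with critical point `t` and well-founded direct limit. -/
structure CE (m : Ordinal.{u}) (j : ZFSet.{u} → ZFSet.{u}) (t : ZFSet.{u}) : Prop where
  el : El (V_ m) j
  ord : t.IsOrdinal
  mem : t ∈ V_ m
  fix : ∀ a ∈ t, j a = a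
  ne : j t ≠ t
  wf : ¬ ∃ (c : ℕ) (x y : ℕ → ZFSet.{u}), ∀ n,
    Iter (V_ m) j (n + c) (x n) (y n) ∧ x (n + 1) ∈ y n

theorem I3wf.ce {t : ZFSet.{u}} (h : I3wf t) : ∃ m j, CE m j t := by
  obtain ⟨h0, m, j, h1, h2, h3, h4, h5⟩ := h
  exact ⟨m, j, h2.el (isTransitive_vonNeumann _), h0, h1, h3, h4, h5⟩

instance (o : Ordinal.{u}) : Fact (V_ o).IsTransitive := ⟨isTransitive_vonNeumann o⟩

namespace CE

variable {m : Ordinal.{u}} {j : ZFSet.{u} → ZFSet.{u}} {t : ZFSet.{u}} (h : CE m j t)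
include h

theorem mem_j : t ∈ j t := by
  refine ((h.ord.subset_iff_eq_or_mem (h.el.ord h.ord h.mem)).1 fun a ha => ?_).resolve_left
    h.ne.symm
  have := h.el.mem ha h.mem
  rwa [h.fix a ha] at this

theorem lim : ∀ a < t.rank, succ a < t.rank := fun a ha => by
  by_contra h1
  have hb := mem_of_rank h.ord ha
  have h2 : ∀ x, x ∈ t → x ∈ a.toZFSet ∨ x = a.toZFSet := fun x hx => by
    have := (rank_lt_of_mem hx).trans_le (not_lt.1 h1)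
    rw [lt_succ_iff, ← Ordinal.rank_toZFSet a,
      (h.ord.mem hx).rank_le_iff_subset (isOrdinal_toZFSet a),
      (h.ord.mem hx).subset_iff_eq_or_mem (isOrdinal_toZFSet a)] at this
    exact this.symm
  have h3 := (h.el.tf2 (fun t b => ∀ x, x ∈ t → x ∈ b ∨ x = b) h.mem
    (h.el.tr.mem_trans hb h.mem)).1 h2 t h.mem_j
  rw [h.fix _ hb] at h3
  rcases h3 with h3 | h3
  · exact mem_asymm h3 hb
  · exact mem_irrefl _ (h3 ▸ hb)

theorem of_sub {x : ZFSet.{u}} (hx : x ⊆ V_ t.rank) : x ∈ V_ m :=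
  mem_vonNeumann.2 ((subset_vonNeumann.1 hx).trans_lt (mem_vonNeumann.1 h.mem))

theorem N_mem : V_ t.rank ∈ V_ m := h.of_sub subset_rfl

theorem of_mem {x : ZFSet.{u}} (hx : x ∈ V_ t.rank) : x ∈ V_ m :=
  h.el.tr.mem_trans hx h.N_mem

theorem gr_sub {C : ZFSet.{u}} (hC : C ⊆ t) : gr (fun a => V_ a.rank) C ⊆ V_ t.rank := by
  intro z hz
  obtain ⟨a, ha, rfl⟩ := mem_img.1 hz
  exact pair_mem_V h.lim (ord_mem_V (hC ha)) (vonNeumann_mem_of_lt (rank_lt_of_mem (hC ha)))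

theorem hier_mem : hier t ∈ V_ m := h.of_sub (h.gr_sub subset_rfl)

theorem tot_j : ∀ a, a ∈ j t → ∃ Y, pair a Y ∈ j (hier t) :=
  (h.el.tf2 (fun t h => ∀ a, a ∈ t → ∃ Y, pair a Y ∈ h) h.mem h.hier_mem).1
    fun _ ha => ⟨_, pair_mem_gr.2 ⟨ha, rfl⟩⟩

theorem hier_j : ∀ a, a ∈ j t → ∀ Y, pair a Y ∈ j (hier t) → Y = V_ a.rank :=
  RecH.eq (fun a Y hY x hx => (h.el.tfA1 (fun h x => ∀ a Y, pair a Y ∈ h →
    (x ∈ Y ↔ ∃ b, b ∈ a ∧ ∃ Z, pair b Z ∈ h ∧ x ⊆ Z)) h.hier_mem).1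
    (fun x hx a Y hY => recH_hier _ h.ord a Y hY x hx) x hx a Y hY)
    (h.el.map _ h.hier_mem) (h.el.ord h.ord h.mem) h.tot_j

theorem fix_V {a : ZFSet.{u}} (ha : a ∈ t) : j (V_ a.rank) = V_ a.rank := by
  have h1 := h.el.pmem (pair_mem_gr.2 ⟨ha, rfl⟩ : pair a (V_ a.rank) ∈ hier t) h.hier_mem
  rw [h.fix a ha] at h1
  exact h.hier_j a ((h.el.ord h.ord h.mem).mem_trans ha h.mem_j) _ h1

theorem fixN : ∀ x ∈ V_ t.rank, j x = x := by
  have key : ∀ o : Ordinal.{u}, ∀ x : ZFSet.{u}, x.rank = o → x ∈ V_ t.rank → j x = x := by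
    intro o
    induction o using WellFoundedLT.induction with
    | _ o ih =>
    rintro x rfl hx
    have tr := isTransitive_vonNeumann t.rank
    ext y
    constructor
    · intro hy
      have h1 := h.fix_V (mem_of_rank h.ord (mem_vonNeumann.1 hx))
      rw [Ordinal.rank_toZFSet] at h1
      have h2 := h.el.sub (subset_vonNeumann_self x) (h.of_mem hx)
        (h.of_mem (vonNeumann_mem_of_lt (mem_vonNeumann.1 hx))) hy
      rw [h1, mem_vonNeumann] at h2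
      have h3 : y ∈ V_ t.rank := mem_vonNeumann.2 (h2.trans (mem_vonNeumann.1 hx))
      rw [← ih _ h2 y rfl h3] at hy
      exact (h.el.mem_iff (h.of_mem h3) (h.of_mem hx)).1 hy
    · intro hy
      have := h.el.mem hy (h.of_mem hx)
      rwa [ih _ (rank_lt_of_mem hy) y rfl (tr.mem_trans hy hx)] at this
  exact fun x hx => key _ x rfl hx

theorem fixN_iter (n : ℕ) {x : ZFSet.{u}} (hx : x ∈ V_ t.rank) : j^[n] x = x :=
  Function.iterate_fixed (h.fixN x hx) n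

theorem top_mem {C : ZFSet.{u}} (hC : Club t C) (h0 : ∃ b, b ∈ t) :
    pair t (V_ t.rank) ∈ j (gr (fun a => V_ a.rank) C) := by
  have c0 : C ∈ V_ m := h.of_sub fun a ha => ord_mem_V (hC.1 ha)
  have c1 : t ∈ j C := (h.el.tf2 (fun t C => ∀ g, g ∈ t → (∃ b, b ∈ g) →
      (∀ b, b ∈ g → ∃ x, x ∈ C ∧ b ∈ x ∧ x ∈ g) → g ∈ C) h.mem c0).1 hC.2.2 t h.mem_j h0
    fun b hb => by
      obtain ⟨x, x1, x2⟩ := hC.2.1 b hb
      refine ⟨x, ?_, x2, hC.1 x1⟩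
      have := h.el.mem x1 c0
      rwa [h.fix x (hC.1 x1)] at this
  obtain ⟨Y, hY⟩ := h.tot_j t h.mem_j
  have := (h.el.tf3 (fun C h P => ∀ a, a ∈ C → ∀ Y, pair a Y ∈ h → pair a Y ∈ P) c0 h.hier_mem
    (h.of_sub (h.gr_sub hC.1))).1 (fun a ha Y hY => pair_mem_gr.2 ⟨ha, (pair_mem_gr.1 hY).2⟩)
    t c1 Y hY
  rwa [h.hier_j t h.mem_j Y hY] at this

theorem N_mem_j : V_ t.rank ∈ j (V_ t.rank) := by
  obtain ⟨Y, hY⟩ := h.tot_j t h.mem_j
  have := (h.el.tf2 (fun h N => ∀ a Y, pair a Y ∈ h → Y ∈ N) h.hier_mem h.N_mem).1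
    (fun a Y hY => snd_in (isTransitive_vonNeumann _) (h.gr_sub subset_rfl hY)) t Y hY
  rwa [h.hier_j t h.mem_j Y hY] at this

/-- No function from an element of `V_t` into `t` takes the value `t` after applying `j`. -/
theorem val_ne {x : ZFSet.{u}} (hx : x ∈ V_ t.rank) (F : ZFSet.{u} → ZFSet.{u})
    (hF : ∀ a ∈ x, F a ∈ t) :
    gr F x ∈ V_ m ∧ ∀ a y, pair a y ∈ j (gr F x) → y ∈ t := by
  have s : gr F x ⊆ V_ t.rank := fun z hz => by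
    obtain ⟨a, ha, rfl⟩ := mem_img.1 hz
    exact pair_mem_V h.lim ((isTransitive_vonNeumann _).mem_trans ha hx) (ord_mem_V (hF a ha))
  refine ⟨h.of_sub s, fun a y hy => ?_⟩
  have h1 := (h.el.tf2 (fun f x => ∀ a y, pair a y ∈ f → a ∈ x) (h.of_sub s) (h.of_mem hx)).1
    (fun a y hy => (pair_mem_gr.1 hy).1) a y hy
  rw [h.fixN x hx] at h1
  have h2 : pair a (F a) ∈ gr F x := pair_mem_gr.2 ⟨h1, rfl⟩
  have h3 := h.el.mem h2 (h.of_sub s)
  rw [h.fixN _ (s h2)] at h3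
  rw [(h.el.tf1 (fun f => ∀ a y, pair a y ∈ f → ∀ y', pair a y' ∈ f → y = y') (h.of_sub s)).1
    (fun a y hy y' hy' => (pair_mem_gr.1 hy).2.symm.trans (pair_mem_gr.1 hy').2) a y hy _ h3]
  exact hF a h1

theorem card_lt {x : ZFSet.{u}} (hx : x ∈ V_ t.rank) : card x < card t := by
  by_contra h1
  obtain ⟨G, hG⟩ := exists_surj_of_card_le (not_lt.1 h1)
  by_cases h0 : ∃ b, b ∈ t
  swap
  · have : t.rank ≤ x.rank := rank_le_iff.2 fun y hy => absurd ⟨y, hy⟩ h0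
    exact absurd (mem_vonNeumann.1 hx) (not_lt.2 this)
  obtain ⟨b0, hb0⟩ := h0
  classical
  obtain ⟨h2, h3⟩ := h.val_ne hx (fun a => if G a ∈ t then G a else b0) fun a _ => by
    split_ifs with e; exacts [e, hb0]
  obtain ⟨a, y, h4, h5⟩ := (h.el.tf2 (fun t f => ∀ b, b ∈ t → ∃ a y, pair a y ∈ f ∧ y = b)
    h.mem h2).1 (fun b hb => by
      obtain ⟨a, ha, rfl⟩ := hG b hb
      exact ⟨a, _, pair_mem_gr.2 ⟨ha, if_pos hb⟩, rfl⟩) t h.mem_j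
  exact mem_irrefl t (h5 ▸ h3 a y h4)

theorem regular (h0 : om ∈ t) : Regular Set.univ t := by
  refine ⟨h.ord, h0, fun a ha f _ hf => ?_⟩
  by_contra h1
  push Not at h1
  obtain ⟨h2, h3⟩ := h.val_ne (ord_mem_V ha) (app f) fun x hx => hf.app_mem' hx
  obtain ⟨x, y, h4, h5⟩ := (h.el.tf2 (fun t f => ∀ b, b ∈ t → ∃ a y, pair a y ∈ f ∧ y ∉ b)
    h.mem h2).1 (fun b hb => by
      obtain ⟨x, y, h4, h5⟩ := h1 b hb
      exact ⟨x, y, pair_mem_gr.2 ⟨(pair_mem_prod.1 (hf.1 h4)).1, hf.app_eq h4⟩, h5⟩) t h.mem_j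
  exact h5 (h3 x y h4)

end CE

end Pool.Agent.MP_ecfd11_lc.H13X
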