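import Pool.Agent.MP_ecfd11_lc.H13X.Defs
import Pool.Agent.MP_ecfd11_lc.Mg.H20_Atom

/-!
Parameter-free definability over a transitive set and transfer along elementary embeddings.
-/

namespace Pool.Agent.MP_ecfd11_lc.H13X

universe u

open ZFSet

/-- Every ordinal definable `A ⊆ V_l` is preserved by an elementary embedding `V_l → V_l` whose
critical sequence has supremum `l`. -/
def Exact1 (l : ZFSet.{u}) : Prop :=
  l.IsOrdinal ∧ ∀ A, OD Set.univ A → A ⊆ vonNeumann l.rank →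
    ∃ (e : ZFSet.{u} → ZFSet.{u}) (k : ZFSet.{u}), Emb (vonNeumann l.rank) A e ∧ k ∈ l ∧
      (∀ a ∈ k, e a = a) ∧ ∀ b ∈ l, ∃ n, b ∈ e^[n] k

/-- Formulas all of whose quantifiers are bounded (`∀ x, x ∈ y → φ`). -/
inductive Bdd : Fml → Prop
  | mem (i j : ℕ) : Bdd (.mem i j)
  | eq (i j : ℕ) : Bdd (.eq i j)
  | neg {φ : Fml} : Bdd φ → Bdd (.neg φ)
  | and {φ ψ : Fml} : Bdd φ → Bdd ψ → Bdd (.and φ ψ)
  | ball (i : ℕ) {φ : Fml} : Bdd φ → Bdd (.all (.neg (.and (.mem 0 (i + 1)) (.neg φ))))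

theorem Bdd.ren {φ : Fml} (h : Bdd φ) : ∀ g, Bdd (ren g φ) := by
  induction h with
  | mem i j => exact fun g => .mem _ _
  | eq i j => exact fun g => .eq _ _
  | neg _ ih => exact fun g => .neg (ih g)
  | and _ _ ih1 ih2 => exact fun g => .and (ih1 g) (ih2 g)
  | ball i _ ih => exact fun g => .ball (g i) (ih (up g))

/-- `P` is definable over the set `M` by a bounded formula without parameters. -/
class E (M : ZFSet.{u}) (P : (ℕ → ZFSet.{u}) → Prop) : Prop where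
  ex : ∃ φ : Fml, Bdd φ ∧ ∀ v, (∀ n, v n ∈ M) → (P v ↔ Sat M φ v)

variable {M : ZFSet.{u}}

theorem cons_in {a : ZFSet.{u}} {v : ℕ → ZFSet.{u}} (ha : a ∈ M) (hv : ∀ n, v n ∈ M) :
    ∀ n, cons a v n ∈ M
  | 0 => ha
  | n + 1 => hv n

theorem fst_in (hM : M.IsTransitive) {a b : ZFSet.{u}} (h : pair a b ∈ M) : a ∈ M :=
  hM.mem_trans (y := {a}) (by simp) (hM.mem_trans (by simp [pair]) h)

theorem snd_in (hM : M.IsTransitive) {a b : ZFSet.{u}} (h : pair a b ∈ M) : b ∈ M :=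
  hM.mem_trans (y := {a, b}) (by simp) (hM.mem_trans (by simp [pair]) h)

namespace E

theorem of {Q : (ℕ → ZFSet.{u}) → Prop} (P : (ℕ → ZFSet.{u}) → Prop) (h : E M P)
    (e : ∀ v, (∀ n, v n ∈ M) → (P v ↔ Q v)) : E M Q := by
  obtain ⟨φ, b, h⟩ := h.ex
  exact ⟨φ, b, fun v hv => (e v hv).symm.trans (h v hv)⟩

theorem rename (P : (ℕ → ZFSet.{u}) → Prop) (h : E M P) (g : ℕ → ℕ) :
    E M (fun v => P fun n => v (g n)) := by
  obtain ⟨φ, b, h⟩ := h.ex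
  exact ⟨ren g φ, b.ren g, fun v hv => by rw [sat_ren]; exact h _ fun n => hv _⟩

instance mem (i j : ℕ) : E M (fun v => v i ∈ v j) := ⟨.mem i j, .mem i j, fun _ _ => Iff.rfl⟩

instance eq (i j : ℕ) : E M (fun v => v i = v j) := ⟨.eq i j, .eq i j, fun _ _ => Iff.rfl⟩

instance not (P : (ℕ → ZFSet.{u}) → Prop) [h : E M P] : E M (fun v => ¬ P v) := by
  obtain ⟨φ, b, h⟩ := h.ex
  exact ⟨.neg φ, b.neg, fun v hv => not_congr (h v hv)⟩

instance notMem (i j : ℕ) : E M (fun v => v i ∉ v j) := E.not fun v => v i ∈ v j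

instance and (P Q : (ℕ → ZFSet.{u}) → Prop) [h1 : E M P] [h2 : E M Q] :
    E M (fun v => P v ∧ Q v) := by
  obtain ⟨φ, b1, h1⟩ := h1.ex
  obtain ⟨ψ, b2, h2⟩ := h2.ex
  exact ⟨.and φ ψ, b1.and b2, fun v hv => and_congr (h1 v hv) (h2 v hv)⟩

instance or (P Q : (ℕ → ZFSet.{u}) → Prop) [E M P] [E M Q] : E M (fun v => P v ∨ Q v) :=
  E.of (fun v => ¬ (¬ P v ∧ ¬ Q v)) inferInstance fun _ _ => by tauto

instance (priority := low) imp (P Q : (ℕ → ZFSet.{u}) → Prop) [E M P] [E M Q] :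
    E M (fun v => P v → Q v) :=
  E.of (fun v => ¬ (P v ∧ ¬ Q v)) inferInstance fun _ _ => by tauto

instance iff (P Q : (ℕ → ZFSet.{u}) → Prop) [E M P] [E M Q] : E M (fun v => P v ↔ Q v) :=
  E.of (fun v => (P v → Q v) ∧ (Q v → P v)) inferInstance fun _ _ =>
    iff_iff_implies_and_implies.symm

variable [hM : Fact M.IsTransitive]

instance allIn (i : ℕ) (Q : (ℕ → ZFSet.{u}) → ZFSet.{u} → Prop)
    [h : E M (fun v => Q (fun n => v (n + 1)) (v 0))] : E M (fun v => ∀ a, a ∈ v i → Q v a) := by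
  obtain ⟨φ, b, h⟩ := h.ex
  refine ⟨_, b.ball i, fun v hv => ⟨fun h1 a ha h2 => h2.2 ?_, fun h1 a ha => ?_⟩⟩
  · exact (h (cons a v) (cons_in ha hv)).1 (h1 a h2.1)
  · have h2 := hM.out.mem_trans ha (hv i)
    exact (h (cons a v) (cons_in h2 hv)).2 (not_not.1 fun h3 => h1 a h2 ⟨ha, h3⟩)

instance exIn (i : ℕ) (Q : (ℕ → ZFSet.{u}) → ZFSet.{u} → Prop)
    [h : E M (fun v => Q (fun n => v (n + 1)) (v 0))] : E M (fun v => ∃ a, a ∈ v i ∧ Q v a) :=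
  E.of (fun v => ¬ ∀ a, a ∈ v i → ¬ Q v a) inferInstance fun _ _ => by simp

instance exIn' (i : ℕ) : E M (fun v => ∃ a, a ∈ v i) :=
  E.of (fun v => ∃ a, a ∈ v i ∧ a = a) inferInstance fun _ _ => by simp

instance subset (i j : ℕ) : E M (fun v => v i ⊆ v j) :=
  E.of (fun v => ∀ a, a ∈ v i → a ∈ v j) inferInstance fun _ _ => subset_def.symm

instance upair (k i j : ℕ) : E M (fun v => v k = {v i, v j}) :=
  E.of (fun v => v i ∈ v k ∧ v j ∈ v k ∧ ∀ a, a ∈ v k → (a = v i ∨ a = v j)) inferInstance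
    fun v _ => ⟨fun ⟨h1, h2, h3⟩ => ZFSet.ext fun z => by
      rw [mem_pair]
      exact ⟨h3 z, by rintro (rfl | rfl); exacts [h1, h2]⟩, fun h => by rw [h]; simp⟩

instance isPair (k i j : ℕ) : E M (fun v => v k = pair (v i) (v j)) :=
  E.of (fun v => ∃ a, a ∈ v k ∧ ∃ b, b ∈ v k ∧ a = {v i, v i} ∧ b = {v i, v j} ∧ v k = {a, b})
    inferInstance fun v _ => by
      have e : ({v i, v i} : ZFSet.{u}) = {v i} := by ext; simp
      rw [e]
      constructor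
      · rintro ⟨_, -, _, -, rfl, rfl, h⟩; exact h
      · intro h
        exact ⟨_, by simp [h, pair], _, by simp [h, pair], rfl, rfl, h⟩

instance pairMem (i j k : ℕ) : E M (fun v => pair (v i) (v j) ∈ v k) :=
  E.of (fun v => ∃ z, z ∈ v k ∧ z = pair (v i) (v j)) inferInstance fun _ _ => by simp

instance allSnd (i k : ℕ) (Q : (ℕ → ZFSet.{u}) → ZFSet.{u} → Prop)
    [h : E M (fun v => Q (fun n => v (n + 1)) (v 0))] :
    E M (fun v => ∀ y, pair (v i) y ∈ v k → Q v y) :=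
  haveI : E M (fun v => Q (fun n => v (n + 1 + 1 + 1)) (v 0)) := h.rename _ (up fun n => n + 1 + 1)
  E.of (fun v => ∀ z, z ∈ v k → ∀ w, w ∈ z → ∀ y, y ∈ w → pair (v i) y ∈ v k → Q v y)
    inferInstance fun v _ =>
    ⟨fun h y hy => h _ hy {v i, y} (by simp [pair]) y (by simp) hy, fun h _ _ _ _ y _ => h y⟩

instance exSnd (i k : ℕ) (Q : (ℕ → ZFSet.{u}) → ZFSet.{u} → Prop)
    [h : E M (fun v => Q (fun n => v (n + 1)) (v 0))] :
    E M (fun v => ∃ y, pair (v i) y ∈ v k ∧ Q v y) :=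
  E.of (fun v => ¬ ∀ y, pair (v i) y ∈ v k → ¬ Q v y) inferInstance fun _ _ => by simp

instance exSnd' (i k : ℕ) : E M (fun v => ∃ y, pair (v i) y ∈ v k) :=
  E.of (fun v => ∃ y, pair (v i) y ∈ v k ∧ y = y) inferInstance fun _ _ => by simp

instance allPair (k : ℕ) (Q : (ℕ → ZFSet.{u}) → ZFSet.{u} → ZFSet.{u} → Prop)
    [h : E M (fun v => Q (fun n => v (n + 1 + 1)) (v 1) (v 0))] :
    E M (fun v => ∀ x y, pair x y ∈ v k → Q v x y) :=
  haveI : E M (fun v => ∀ y, pair (v 0) y ∈ v (k + 1 + 1 + 1) →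
      Q (fun n => v (n + 1 + 1 + 1)) (v 0) y) :=
    (E.allSnd 0 (k + 1) (fun v y => Q (fun n => v (n + 1)) (v 0) y) (h := h)).rename _
      (up fun n => n + 1 + 1)
  E.of (fun v => ∀ z, z ∈ v k → ∀ w, w ∈ z → ∀ x, x ∈ w → ∀ y, pair x y ∈ v k → Q v x y)
    inferInstance fun v _ =>
    ⟨fun h x y hy => h _ hy {x} (by simp [pair]) x (by simp) y hy, fun h _ _ _ _ x _ => h x⟩

instance exPair (k : ℕ) (Q : (ℕ → ZFSet.{u}) → ZFSet.{u} → ZFSet.{u} → Prop)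
    [h : E M (fun v => Q (fun n => v (n + 1 + 1)) (v 1) (v 0))] :
    E M (fun v => ∃ x y, pair x y ∈ v k ∧ Q v x y) :=
  E.of (fun v => ¬ ∀ x y, pair x y ∈ v k → ¬ Q v x y) inferInstance fun _ _ => by simp

instance isTransitive (i : ℕ) : E M (fun v => (v i).IsTransitive) :=
  E.of (fun v => ∀ y, y ∈ v i → y ⊆ v i) inferInstance fun _ _ => Iff.rfl

instance isOrdinal (i : ℕ) : E M (fun v => (v i).IsOrdinal) :=
  E.of (fun v => (v i).IsTransitive ∧ ∀ y, y ∈ v i → y.IsTransitive) inferInstance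
    fun _ _ => isOrdinal_iff_forall_mem_isTransitive.symm

end E

/-- `j` is a `Σ₁`-elementary embedding of the transitive set `M` into itself. -/
structure El (M : ZFSet.{u}) (j : ZFSet.{u} → ZFSet.{u}) : Prop where
  tr : M.IsTransitive
  map : ∀ x ∈ M, j x ∈ M
  el : ∀ φ, Bdd φ → ∀ v : ℕ → ZFSet.{u}, (∀ n, v n ∈ M) →
    (Sat M (.all φ) v ↔ Sat M (.all φ) fun n => j (v n))

theorem Emb.el {A : ZFSet.{u}} {j : ZFSet.{u} → ZFSet.{u}} (h : Emb M A j)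
    (hM : M.IsTransitive) : El M j :=
  ⟨hM, h.1, fun φ _ v hv => by
    have := h.2 (ren Nat.succ (.all φ)) v hv
    rwa [sat_ren, sat_ren] at this⟩

theorem Emb.pres {A : ZFSet.{u}} {j : ZFSet.{u} → ZFSet.{u}} (h : Emb M A j) {x : ZFSet.{u}}
    (hx : x ∈ M) : x ∈ A ↔ j x ∈ A := h.2 (.mem 1 0) (fun _ => x) fun _ => hx

namespace El

variable {j : ZFSet.{u} → ZFSet.{u}} (h : El M j) {a b c d e : ZFSet.{u}}
include h

theorem iter (n : ℕ) : El M j^[n] := by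
  induction n with
  | zero => exact ⟨h.tr, fun _ hx => hx, fun _ _ _ _ => Iff.rfl⟩
  | succ n ih =>
    refine ⟨h.tr, fun x hx => ih.map _ (h.map x hx), fun φ b v hv => ?_⟩
    exact (h.el φ b v hv).trans (ih.el φ b _ fun n => h.map _ (hv n))

theorem tfA (Q : (ℕ → ZFSet.{u}) → ZFSet.{u} → Prop)
    [hQ : E M fun v => Q (fun n => v (n + 1)) (v 0)] (v : ℕ → ZFSet.{u}) (hv : ∀ n, v n ∈ M) :
    (∀ a, a ∈ M → Q v a) ↔ ∀ a, a ∈ M → Q (fun n => j (v n)) a := by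
  obtain ⟨φ, b, hQ⟩ := hQ.ex
  have : ∀ v : ℕ → ZFSet.{u}, (∀ n, v n ∈ M) → ((∀ a, a ∈ M → Q v a) ↔ Sat M (.all φ) v) :=
    fun v hv => forall_congr' fun a => forall_congr' fun ha => hQ (cons a v) (cons_in ha hv)
  rw [this v hv, this _ fun n => h.map _ (hv n), h.el φ b v hv]

theorem tf (P : (ℕ → ZFSet.{u}) → Prop) [hP : E M P] (v : ℕ → ZFSet.{u}) (hv : ∀ n, v n ∈ M) :
    P v ↔ P fun n => j (v n) := by
  have := h.tfA (fun v _ => P v) (hQ := hP.rename _ fun n => n + 1) v hv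
  exact ⟨fun h1 => this.1 (fun _ _ => h1) _ (hv 0), fun h1 => this.2 (fun _ _ => h1) _ (hv 0)⟩

theorem tfA1 (P : ZFSet.{u} → ZFSet.{u} → Prop) [E M fun v => P (v 1) (v 0)] (ha : a ∈ M) :
    (∀ x, x ∈ M → P a x) ↔ ∀ x, x ∈ M → P (j a) x :=
  h.tfA (fun v x => P (v 0) x) (fun _ => a) fun _ => ha

theorem tfE4 (P : ZFSet.{u} → ZFSet.{u} → ZFSet.{u} → ZFSet.{u} → ZFSet.{u} → Prop)
    [E M fun v => P (v 1) (v 2) (v 3) (v 4) (v 0)] (ha : a ∈ M) (hb : b ∈ M) (hc : c ∈ M)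
    (hd : d ∈ M) (hP : ∃ x, x ∈ M ∧ P (j a) (j b) (j c) (j d) x) : ∃ x, x ∈ M ∧ P a b c d x := by
  by_contra h1
  obtain ⟨x, h2, h3⟩ := hP
  exact (h.tfA (fun v x => ¬ P (v 0) (v 1) (v 2) (v 3) x) (cons a (cons b (cons c fun _ => d)))
    (cons_in ha (cons_in hb (cons_in hc fun _ => hd)))).1 (fun x h2 h3 => h1 ⟨x, h2, h3⟩) x h2 h3

theorem tf1 (P : ZFSet.{u} → Prop) [E M fun v => P (v 0)] (ha : a ∈ M) : P a ↔ P (j a) :=
  h.tf (fun v => P (v 0)) (fun _ => a) fun _ => ha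

theorem tf2 (P : ZFSet.{u} → ZFSet.{u} → Prop) [E M fun v => P (v 0) (v 1)] (ha : a ∈ M)
    (hb : b ∈ M) : P a b ↔ P (j a) (j b) :=
  h.tf (fun v => P (v 0) (v 1)) (cons a fun _ => b) (cons_in ha fun _ => hb)

theorem tf3 (P : ZFSet.{u} → ZFSet.{u} → ZFSet.{u} → Prop) [E M fun v => P (v 0) (v 1) (v 2)]
    (ha : a ∈ M) (hb : b ∈ M) (hc : c ∈ M) : P a b c ↔ P (j a) (j b) (j c) :=
  h.tf (fun v => P (v 0) (v 1) (v 2)) (cons a (cons b fun _ => c))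
    (cons_in ha (cons_in hb fun _ => hc))

theorem tf4 (P : ZFSet.{u} → ZFSet.{u} → ZFSet.{u} → ZFSet.{u} → Prop)
    [E M fun v => P (v 0) (v 1) (v 2) (v 3)] (ha : a ∈ M) (hb : b ∈ M) (hc : c ∈ M)
    (hd : d ∈ M) : P a b c d ↔ P (j a) (j b) (j c) (j d) :=
  h.tf (fun v => P (v 0) (v 1) (v 2) (v 3)) (cons a (cons b (cons c fun _ => d)))
    (cons_in ha (cons_in hb (cons_in hc fun _ => hd)))

theorem mem_iff (ha : a ∈ M) (hb : b ∈ M) : j a ∈ j b ↔ a ∈ b :=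
  (h.tf2 (fun a b => a ∈ b) ha hb).symm

theorem mem (hab : a ∈ b) (hb : b ∈ M) : j a ∈ j b :=
  (h.mem_iff (h.tr.mem_trans hab hb) hb).2 hab

theorem sub (hab : a ⊆ b) (ha : a ∈ M) (hb : b ∈ M) : j a ⊆ j b :=
  haveI := Fact.mk h.tr
  (h.tf2 (fun a b => a ⊆ b) ha hb).1 hab

theorem ord (ho : a.IsOrdinal) (ha : a ∈ M) : (j a).IsOrdinal :=
  haveI := Fact.mk h.tr
  (h.tf1 (fun a => a.IsOrdinal) ha).1 ho

theorem pair (hp : pair a b ∈ M) : j (pair a b) = pair (j a) (j b) :=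
  haveI := Fact.mk h.tr
  (h.tf3 (fun z a b => z = ZFSet.pair a b) hp (fst_in h.tr hp) (snd_in h.tr hp)).1 rfl

theorem pmem (hp : ZFSet.pair a b ∈ c) (hc : c ∈ M) : ZFSet.pair (j a) (j b) ∈ j c :=
  h.pair (h.tr.mem_trans hp hc) ▸ h.mem hp hc

end El

end Pool.Agent.MP_ecfd11_lc.H13X
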