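import Pool.Agent.MP_ecfd11_lc.H13X.Fam

/-!
Below a critical point that is strongly measurable in HOD, club many ordinals of countable
cofinality are exact.
-/

set_option synthInstance.maxSize 4000

namespace Pool.Agent.MP_ecfd11_lc.H13X

open Pool.Agent.MP_ecfd11_lc.H20

universe u

open ZFSet Cardinal Order Function Filter

/-- `f'` answers the challenge `a` at the node `f`. -/
def Ch (t B f a f' : ZFSet.{u}) : Prop :=
  f' ∈ V_ t.rank ∧ Child B (hier t) f f' ∧ ∃ y, pair a y ∈ f'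

/-- The challenger wins from the node `f` with rank at most `o`. -/
inductive Lo (t B : ZFSet.{u}) : Ordinal.{u} → ZFSet.{u} → Prop
  | mk (o : Ordinal.{u}) (f a : ZFSet.{u}) (ha : a ∈ t) (ρ : ZFSet.{u} → Ordinal.{u})
      (h1 : ∀ f', Ch t B f a f' → ρ f' < o) (h2 : ∀ f', Ch t B f a f' → Lo t B (ρ f') f') :
      Lo t B o f

theorem lo_rank (t B : ZFSet.{u}) : ∃ (ρ : ZFSet.{u} → Ordinal.{u}) (A : ZFSet.{u} → ZFSet.{u}),
    ∀ f, (∃ o, Lo t B o f) → A f ∈ t ∧ ∀ f', Ch t B f (A f) f' →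
      (∃ o, Lo t B o f') ∧ ρ f' < ρ f := by
  have h1 : ∀ f, (∃ o, Lo t B o f) → ∃ a, a ∈ t ∧ ∀ f', Ch t B f a f' →
      (∃ o, Lo t B o f') ∧ sInf {o | Lo t B o f'} < sInf {o | Lo t B o f} := fun f hf => by
    have h2 : Lo t B (sInf {o | Lo t B o f}) f := csInf_mem (s := {o | Lo t B o f}) hf
    generalize sInf {o | Lo t B o f} = o at h2 ⊢
    obtain ⟨_, _, a, ha, ρ, h3, h4⟩ := h2
    exact ⟨a, ha, fun f' h5 => ⟨⟨_, h4 f' h5⟩,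
      (csInf_le' (s := {o | Lo t B o f'}) (h4 f' h5)).trans_lt (h3 f' h5)⟩⟩
  choose! A h2 h3 using h1
  exact ⟨fun f => sInf {o | Lo t B o f}, A, fun f hf => ⟨h2 f hf, h3 f hf⟩⟩

theorem not_lo {t B f a : ZFSet.{u}} (hf : ¬ ∃ o, Lo t B o f) (ha : a ∈ t) :
    ∃ f', Ch t B f a f' ∧ ¬ ∃ o, Lo t B o f' := by
  by_contra h1
  have h2 : ∀ f', Ch t B f a f' → ∃ o, Lo t B o f' := fun f' h2 =>
    by_contra fun h3 => h1 ⟨f', h2, h3⟩
  choose! ρ hρ using h2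
  exact hf ⟨(⨆ x : (V_ t.rank : ZFSet.{u}), ρ x) + 1, .mk _ f a ha ρ (fun f' h2 =>
    lt_add_one_iff.2 (Ordinal.le_iSup (fun x : (V_ t.rank : ZFSet.{u}) => ρ x) ⟨f', h2.1⟩)) hρ⟩

/-- The union of the iterated images of `X`. -/
noncomputable def star (j : ZFSet.{u} → ZFSet.{u}) (X : ZFSet.{u}) : ZFSet.{u} :=
  ⋃₀ range fun n : ℕ => j^[n] X

theorem mem_star {j : ZFSet.{u} → ZFSet.{u}} {X x : ZFSet.{u}} :
    x ∈ star j X ↔ ∃ n, x ∈ j^[n] X := by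
  simp [star]

/-- `F` preserves `B*`, pairing and the critical sequence of `j`. -/
structure Mon (j : ZFSet.{u} → ZFSet.{u}) (t B : ZFSet.{u}) (F : ZFSet.{u} → ZFSet.{u}) :
    Prop where
  pre : ∀ x ∈ star j (V_ t.rank), (x ∈ star j B ↔ F x ∈ star j B)
  com : ∀ x ∈ star j (V_ t.rank), ∀ y ∈ star j (V_ t.rank), F (pair x y) = pair (F x) (F y)
  lev : ∀ n, ∃ r, n ≤ r ∧ F (j^[n] t) = j^[r] t ∧
    ∀ x ∈ j^[n] (V_ t.rank), F x ∈ j^[r] (V_ t.rank)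

theorem Mon.map {j F : ZFSet.{u} → ZFSet.{u}} {t B x : ZFSet.{u}} (h : Mon j t B F)
    (hx : x ∈ star j (V_ t.rank)) : F x ∈ star j (V_ t.rank) := by
  obtain ⟨n, hn⟩ := mem_star.1 hx
  obtain ⟨r, -, -, h1⟩ := h.lev n
  exact mem_star.2 ⟨r, h1 x hn⟩

theorem Mon.comp {j F G : ZFSet.{u} → ZFSet.{u}} {t B : ZFSet.{u}} (hG : Mon j t B G)
    (hF : Mon j t B F) : Mon j t B fun x => G (F x) := by
  refine ⟨fun x hx => (hF.pre x hx).trans (hG.pre _ (hF.map hx)), fun x hx y hy => ?_, fun n => ?_⟩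
  · rw [hF.com x hx y hy, hG.com _ (hF.map hx) _ (hF.map hy)]
  · obtain ⟨r, h1, h2, h3⟩ := hF.lev n
    obtain ⟨s, h4, h5, h6⟩ := hG.lev r
    exact ⟨s, h1.trans h4, by rw [h2, h5], fun x hx => h6 _ (h3 x hx)⟩

namespace CE

variable {m : Ordinal.{u}} {j : ZFSet.{u} → ZFSet.{u}} {t : ZFSet.{u}} (h : CE m j t)
include h

theorem club_self : Club t t :=
  ⟨subset_rfl, fun b hb => ⟨_, mem_of_rank h.ord (h.lim _ (rank_lt_of_mem hb)),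
    ((h.ord.mem hb).rank_lt_iff_mem (isOrdinal_toZFSet _)).1
      (by rw [Ordinal.rank_toZFSet]; exact lt_succ _)⟩, fun _ hg _ _ => hg⟩

theorem pn_mem (h0 : om ∈ t) (n : ℕ) : pair (j^[n] t) (j^[n] (V_ t.rank)) ∈ j^[n + 1] (hier t) :=
  (h.el.iter n).pmem (h.top_mem h.club_self ⟨_, h0⟩) (h.el.map _ h.hier_mem)

theorem kn_mem (h0 : om ∈ t) {n r : ℕ} (hr : n < r) : j^[n] t ∈ j^[r] (V_ t.rank) :=
  h.Nn_mono hr (fst_in (h.Nn_tr _) (h.iter_sub (h.gr_sub subset_rfl) _ (h.pn_mem h0 n)))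

theorem kn_lt {n r : ℕ} (hr : n < r) : j^[n] t ∈ j^[r] t := by
  have h1 : ∀ n, j^[n] t ∈ j^[n + 1] t := fun n =>
    (h.el.iter n).mem h.mem_j (h.el.map _ h.mem)
  induction hr with
  | refl => exact h1 n
  | step _ ih => exact ((h.el.iter _).ord h.ord h.mem).mem_trans ih (h1 _)

theorem star_iff {X x : ZFSet.{u}} (hX : X ⊆ V_ t.rank) {K : ℕ} (hx : x ∈ j^[K] (V_ t.rank)) :
    x ∈ star j X ↔ x ∈ j^[K] X := by
  refine ⟨fun h1 => ?_, fun h1 => mem_star.2 ⟨K, h1⟩⟩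
  obtain ⟨k, hk⟩ := mem_star.1 h1
  rcases le_total k K with h2 | h2
  exacts [(h.iter_iff hX h2 (h.iter_sub hX k hk)).2 hk, (h.iter_iff hX h2 hx).1 hk]

section

variable {B : ZFSet.{u}} (h0 : om ∈ t) (hB : B ⊆ V_ t.rank)
include h0 hB

theorem exists_J (r : ℕ) : ∃ J, Mon j t B J ∧ (∀ x ∈ j^[r] (V_ t.rank), J x = x) ∧
    J (j^[r] t) = j^[r + 1] t := by
  have g0 : ∀ s, gr j (j^[s] (V_ t.rank)) ∈ V_ m := fun s => h.sub_M (s + 1) (h.gr_sub_succ s)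
  have n3 : ∀ s, ∀ x ∈ j^[s] (V_ t.rank), x ∈ V_ m := fun s x hx =>
    h.el.tr.mem_trans hx (h.Nn_mem s)
  obtain ⟨G, eG⟩ : ∃ G : ℕ → ZFSet.{u}, ∀ s, G s = j^[r] (gr j (j^[s] (V_ t.rank))) :=
    ⟨_, fun _ => rfl⟩
  have g1 : ∀ s s', s ≤ s' → G s ⊆ G s' := fun s s' hs => by
    rw [eG, eG]
    refine (h.el.iter r).sub (fun z hz => ?_) (g0 s) (g0 s')
    obtain ⟨x, hx, rfl⟩ := mem_img.1 hz
    exact pair_mem_gr.2 ⟨h.Nn_mono hs hx, rfl⟩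
  have a1 : ∀ s, Fn (j^[r + (s + 1)] B) (G s) := fun s => by
    rw [eG, iterate_add_apply]
    exact ((h.el.iter r).tf2 (fun B f => Fn B f) ((h.el.iter _).map _ (h.of_sub hB)) (g0 s)).1
      ⟨fun x y h1 y' h2 => (pair_mem_gr.1 h2).2.symm.trans (pair_mem_gr.1 h1).2,
        fun x y h1 => by
          obtain ⟨h2, rfl⟩ := pair_mem_gr.1 h1
          rw [h.iter_iff hB (Nat.le_succ s) h2, iterate_succ_apply' j s,
            h.el.mem_iff (n3 s x h2) ((h.el.iter _).map _ (h.of_sub hB))],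
        fun x y h1 x' y' h2 z w h3 e => by
          obtain ⟨-, rfl⟩ := pair_mem_gr.1 h1
          obtain ⟨-, rfl⟩ := pair_mem_gr.1 h2
          obtain ⟨h4, rfl⟩ := pair_mem_gr.1 h3
          subst e
          exact h.el.pair (n3 s _ h4)⟩
  have a2 : ∀ s x y, pair x y ∈ G s → app (⋃₀ range G) x = y := fun s x y h1 =>
    app_eq (mem_sUnion.2 ⟨_, mem_range.2 ⟨s, rfl⟩, h1⟩) fun y' h2 => by
      obtain ⟨_, h3, h4⟩ := mem_sUnion.1 h2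
      obtain ⟨s', rfl⟩ := mem_range.1 h3
      exact (a1 (max s s')).1 x y (g1 _ _ (le_max_left _ _) h1) y' (g1 _ _ (le_max_right _ _) h4)
  have a3 : ∀ s, ∀ x ∈ j^[r + s] (V_ t.rank), pair x (app (⋃₀ range G) x) ∈ G s :=
    fun s x hx => by
      rw [iterate_add_apply] at hx
      obtain ⟨y, hy⟩ := ((h.el.iter r).tf2 (fun N f => ∀ x, x ∈ N → ∃ y, pair x y ∈ f)
        (h.Nn_mem s) (g0 s)).1 (fun x hx => ⟨_, pair_mem_gr.2 ⟨hx, rfl⟩⟩) x hx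
      rw [← eG] at hy
      rwa [a2 s x y hy]
  have a6 : ∀ s, ∀ x ∈ j^[r + s] (V_ t.rank),
      app (⋃₀ range G) x ∈ j^[r + (s + 1)] (V_ t.rank) := fun s x hx => by
    have h1 := a3 s x hx
    rw [eG] at h1
    rw [iterate_add_apply]
    exact snd_in (((h.el.iter r).tf1 (fun N => N.IsTransitive) (h.Nn_mem _)).1 (h.Nn_tr _))
      ((h.el.iter r).sub (h.gr_sub_succ s) (g0 s) (h.Nn_mem _) h1)
  have a4 : ∀ x ∈ j^[r] (V_ t.rank), app (⋃₀ range G) x = x := fun x hx => a2 0 x x (by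
    rw [eG]
    exact ((h.el.iter r).tf2 (fun N f => ∀ x, x ∈ N → pair x x ∈ f) h.N_mem (g0 0)).1
      (fun x hx => pair_mem_gr.2 ⟨hx, h.fixN x hx⟩) x hx)
  have a5 : ∀ s, app (⋃₀ range G) (j^[r + s] t) = j^[r + (s + 1)] t := fun s => by
    rw [iterate_add_apply, iterate_add_apply]
    refine a2 (s + 1) _ _ ?_
    rw [eG]
    exact (h.el.iter r).pmem (pair_mem_gr.2
      ⟨h.kn_mem h0 (Nat.lt_succ_self s), (iterate_succ_apply' j s t).symm⟩) (g0 _)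
  refine ⟨app (⋃₀ range G), ⟨fun x hx => ?_, fun x hx y hy => ?_, fun n => ?_⟩, a4, a5 0⟩
  · obtain ⟨n, hn⟩ := mem_star.1 hx
    have h1 := h.Nn_mono (Nat.le_add_left n r) hn
    rw [h.star_iff hB (h.Nn_mono (Nat.le_succ _) h1), h.star_iff hB (a6 n x h1)]
    exact (a1 n).2.1 _ _ (a3 n x h1)
  · obtain ⟨n, hn⟩ := mem_star.1 hx
    obtain ⟨k, hk⟩ := mem_star.1 hy
    have h1 := h.Nn_mono (show n ≤ r + max n k by omega) hn
    have h2 := h.Nn_mono (show k ≤ r + max n k by omega) hk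
    exact (a1 _).2.2 _ _ (a3 _ x h1) _ _ (a3 _ y h2) _ _ (a3 _ _ (h.Nn_pair _ h1 h2)) rfl
  rcases lt_or_ge n r with hn | hn
  · exact ⟨n, le_rfl, a4 _ (h.kn_mem h0 hn), fun x hx => by rwa [a4 x (h.Nn_mono hn.le hx)]⟩
  · obtain ⟨s, rfl⟩ := Nat.exists_eq_add_of_le hn
    exact ⟨r + (s + 1), by omega, a5 s, a6 s⟩

theorem bump {F : ZFSet.{u} → ZFSet.{u}} (hF : Mon j t B F) (n s : ℕ) :
    ∃ F' r, Mon j t B F' ∧ s ≤ r ∧ n < r ∧ (∀ x ∈ j^[n] (V_ t.rank), F' x = F x) ∧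
      F' (j^[n] t) = j^[r] t ∧ ∀ x ∈ j^[n] (V_ t.rank), F x ∈ j^[r] (V_ t.rank) := by
  induction s with
  | zero =>
    obtain ⟨r, h1, h2, h3⟩ := hF.lev n
    obtain ⟨J, j1, j2, j3⟩ := h.exists_J h0 hB r
    exact ⟨_, r + 1, j1.comp hF, Nat.zero_le _, Nat.lt_succ_of_le h1, fun x hx => j2 _ (h3 x hx),
      by rw [h2, j3], fun x hx => h.Nn_mono (Nat.le_succ r) (h3 x hx)⟩
  | succ s ih =>
    obtain ⟨F', r, h1, h2, h3, h4, h5, h6⟩ := ih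
    obtain ⟨J, j1, j2, j3⟩ := h.exists_J h0 hB r
    exact ⟨_, r + 1, j1.comp h1, Nat.succ_le_succ h2, Nat.lt_succ_of_lt h3,
      fun x hx => by rw [h4 x hx, j2 _ (h6 x hx)], by rw [h5, j3],
      fun x hx => h.Nn_mono (Nat.le_succ r) (h6 x hx)⟩

theorem arrive {F : ZFSet.{u} → ZFSet.{u}} (hF : Mon j t B F) (n K : ℕ) :
    ∃ i F' r, Mon j t B F' ∧ K ≤ r ∧ gr F' (j^[r] (V_ t.rank)) ∈ j^[K + i + 1] (V_ t.rank) ∧
      Child (j^[K + i + 1] B) (j^[K + i + 1] (hier t)) (gr F (j^[n] (V_ t.rank)))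
        (gr F' (j^[r] (V_ t.rank))) := by
  have hP : hier t ⊆ V_ t.rank := h.gr_sub subset_rfl
  obtain ⟨F', r, h1, h2, h3, h4, h5, h6⟩ := h.bump h0 hB hF n K
  obtain ⟨r', k1, -, k2⟩ := h1.lev r
  obtain ⟨i, rfl⟩ := Nat.exists_eq_add_of_le (h2.trans k1)
  have p2 : ∀ G k, k ≤ K + i → Nd (j^[K + i + 1] (hier t)) (gr G (j^[k] (V_ t.rank))) (j^[k] t)
      (j^[k] (V_ t.rank)) := fun G k hk =>
    ⟨(h.iter_iff hP (Nat.succ_le_succ hk) (h.iter_sub hP _ (h.pn_mem h0 k))).2 (h.pn_mem h0 k),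
      fun _ hx => ⟨_, pair_mem_gr.2 ⟨hx, rfl⟩⟩, fun _ _ hx => (pair_mem_gr.1 hx).1⟩
  refine ⟨i, F', r, h1, h2, h.Nn_sub _ (h.Nn_succ _) fun z hz => ?_,
    j^[n] t, j^[r] t, pair_mem_gr.2 ⟨h.kn_mem h0 h3, h5⟩, _, (p2 F n (h3.le.trans k1)).1, _,
      (p2 F r k1).1, p2 F n (h3.le.trans k1), p2 F' r k1, h.kn_lt h3, fun z hz => ?_,
      fun z hz => ?_, fun x y h1 y' h2 => (pair_mem_gr.1 h2).2.symm.trans (pair_mem_gr.1 h1).2,
      fun x y h7 => ?_, fun x y h7 x' y' h8 z w h9 e => ?_⟩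
  · obtain ⟨x, hx, rfl⟩ := mem_img.1 hz
    exact h.Nn_pair _ (h.Nn_mono k1 hx) (k2 x hx)
  · obtain ⟨x, hx, rfl⟩ := mem_img.1 hz
    exact pair_mem_gr.2 ⟨h.Nn_mono h3.le hx, h4 x hx⟩
  · obtain ⟨x, hx, rfl⟩ := mem_img.1 hz
    exact h.Nn_pair _ (h.Nn_mono h3.le hx) (h6 x hx)
  · obtain ⟨h8, rfl⟩ := pair_mem_gr.1 h7
    rw [← h.star_iff hB (h.Nn_mono (k1.trans (Nat.le_succ _)) h8),
      ← h.star_iff hB (h.Nn_mono (Nat.le_succ _) (k2 x h8))]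
    exact h1.pre x (mem_star.2 ⟨_, h8⟩)
  · obtain ⟨k7, rfl⟩ := pair_mem_gr.1 h7
    obtain ⟨k8, rfl⟩ := pair_mem_gr.1 h8
    obtain ⟨-, rfl⟩ := pair_mem_gr.1 h9
    subst e
    exact h1.com x (mem_star.2 ⟨_, k7⟩) x' (mem_star.2 ⟨_, k8⟩)

/-- The challenger does not win from some root. -/
theorem win {g : ZFSet.{u}} (hg : g ∈ t) : ∃ f, f ∈ V_ t.rank ∧ (¬ ∃ o, Lo t B o f) ∧
    (∀ x y, pair x y ∈ f → x = y) ∧ pair g g ∈ f := by
  by_contra hn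
  have hP : hier t ⊆ V_ t.rank := h.gr_sub subset_rfl
  have tr := isTransitive_vonNeumann t.rank
  obtain ⟨ρ, A, hA⟩ := lo_rank t B
  let σ : ZFSet.{u} → Ordinal.{u} ×ₗ Ordinal.{u} := fun z => toLex (ρ (snd z), rank (fst z))
  let pred : ZFSet.{u} → ZFSet.{u} := fun z => (V_ t.rank).sep fun z' => σ z' < σ z
  have wf : WellFounded fun y x => y ∈ pred x :=
    Subrelation.wf (r := InvImage (· < ·) σ) (fun hy => (mem_sep.1 hy).2)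
      (InvImage.wf σ wellFounded_lt)
  obtain ⟨H, hH⟩ := exists_rec pred wf fun _ g => img snd g
  simp only [snd_gr] at hH
  have h1 : ∀ x, ∀ o < rank (H x), ∃ z ∈ V_ t.rank, rank (H z) = o := fun x => by
    induction x using wf.induction with
    | _ x ih =>
      intro o ho
      rw [hH] at ho
      obtain ⟨_, hy, h2⟩ := lt_rank_iff.1 ho
      obtain ⟨y, hy', rfl⟩ := mem_img.1 hy
      rcases h2.eq_or_lt with h2 | h2
      exacts [⟨y, (mem_sep.1 hy').1, h2.symm⟩, ih y hy' o h2]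
  have h2 : ∀ x, (rank (H x)).toZFSet ∈ j^[1] (V_ t.rank) := fun x => h.jt_sub
    (h.mem_jt (isOrdinal_toZFSet _) (fun z => (rank (H z)).toZFSet) fun b hb => by
      obtain ⟨o, ho, rfl⟩ := Ordinal.mem_toZFSet_iff.1 hb
      obtain ⟨z, hz, rfl⟩ := h1 x o ho
      exact ⟨z, hz, rfl⟩)
  have h3 : ∀ z' z, z' ∈ V_ t.rank → σ z' < σ z →
      (rank (H z')).toZFSet ∈ (rank (H z)).toZFSet := fun z' z h3 h4 => by
    refine Ordinal.toZFSet_mem_toZFSet_iff.2 (rank_lt_of_mem ?_)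
    rw [hH z]
    exact mem_img.2 ⟨z', mem_sep.2 ⟨h3, h4⟩, rfl⟩
  obtain ⟨R, eR⟩ : ∃ R, R = gr (fun z => (rank (H z)).toZFSet)
    ((V_ t.rank).sep fun z => ∃ o, Lo t B o (snd z)) := ⟨_, rfl⟩
  have r0 : ∀ z y, pair z y ∈ R ↔ (z ∈ V_ t.rank ∧ ∃ o, Lo t B o (snd z)) ∧
      (rank (H z)).toZFSet = y := fun f y => by rw [eR, pair_mem_gr, mem_sep]
  have r1 : R ∈ V_ m := h.sub_M 1 fun z hz => by
    obtain ⟨x, hx, rfl⟩ := mem_img.1 (eR ▸ hz)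
    exact h.Nn_pair 1 (h.Nn_mono (Nat.zero_le 1) (mem_sep.1 hx).1) (h2 x)
  obtain ⟨G, eG⟩ : ∃ G, G = gr A ((V_ t.rank).sep fun f => ∃ o, Lo t B o f) := ⟨_, rfl⟩
  have s0 : ∀ f a, pair f a ∈ G ↔ (f ∈ V_ t.rank ∧ ∃ o, Lo t B o f) ∧ A f = a := fun f a => by
    rw [eG, pair_mem_gr, mem_sep]
  have s1 : G ⊆ V_ t.rank := fun z hz => by
    obtain ⟨x, hx, rfl⟩ := mem_img.1 (eG ▸ hz)
    exact pair_mem_V h.lim (mem_sep.1 hx).1 (ord_mem_V (hA x (mem_sep.1 hx).2).1)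
  have g0 : gr j (j^[1] (V_ t.rank)) ∈ V_ m := h.sub_M 2 (h.gr_sub_succ 1)
  have n0 : ∀ K i, nat i ∈ j^[K] (V_ t.rank) := fun K i =>
    h.Nn_mono (Nat.zero_le K) (ord_mem_V (h.ord.mem_trans (nat_mem_om i) h0))
  have p0 : ∀ K z x, pair z x ∈ j^[K] R →
      ∃ y, pair x y ∈ j^[K] (gr j (j^[1] (V_ t.rank))) ∧ pair z y ∈ j^[K + 1] R := fun K =>
    ((h.el.iter K).tf3 (fun R R' G => ∀ f x, pair f x ∈ R →
      ∃ y, pair x y ∈ G ∧ pair f y ∈ R') r1 (h.el.map _ r1) g0).1 fun f x hx => by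
        have h3 := h.el.pmem hx r1
        obtain ⟨h4, rfl⟩ := (r0 f x).1 hx
        rw [h.fixN f h4.1] at h3
        exact ⟨_, pair_mem_gr.2 ⟨h2 f, rfl⟩, h3⟩
  have p1 : ∀ K z y, pair z y ∈ j^[K] R → ∀ i f, pair i f ∈ j^[K] (V_ t.rank) → z = pair i f →
      ∀ i', i' ∈ i → ∀ z', z' ∈ j^[K] (V_ t.rank) → z' = pair i' f →
      ∃ y', pair z' y' ∈ j^[K] R ∧ y' ∈ y := fun K =>
    ((h.el.iter K).tf2 (fun N R => ∀ z y, pair z y ∈ R → ∀ i f, pair i f ∈ N → z = pair i f →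
      ∀ i', i' ∈ i → ∀ z', z' ∈ N → z' = pair i' f → ∃ y', pair z' y' ∈ R ∧ y' ∈ y)
      h.N_mem r1).1 fun z y hy i f _ e i' hi z' hz' e' => by
        obtain ⟨h4, rfl⟩ := (r0 z y).1 hy
        subst e e'
        rw [snd_pair] at h4
        refine ⟨_, (r0 _ _).2 ⟨⟨hz', by rw [snd_pair]; exact h4.2⟩, rfl⟩, h3 _ _ hz' ?_⟩
        simp only [σ, fst_pair, snd_pair]
        exact Prod.Lex.toLex_lt_toLex.2 (Or.inr ⟨rfl, rank_lt_of_mem hi⟩)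
  have p2 : ∀ K z y, pair z y ∈ j^[K] R → ∀ i f, pair i f ∈ j^[K] (V_ t.rank) → z = pair i f →
      ∀ a, pair f a ∈ j^[K] G → ∀ i' f', pair i' f' ∈ j^[K] (V_ t.rank) →
      Child (j^[K] B) (j^[K] (hier t)) f f' → (∃ w, pair a w ∈ f') →
      ∀ z', z' ∈ j^[K] (V_ t.rank) → z' = pair i' f' → ∃ y', pair z' y' ∈ j^[K] R ∧ y' ∈ y :=
    fun K => ((h.el.iter K).tf (fun v => ∀ z y, pair z y ∈ v 1 → ∀ i f, pair i f ∈ v 0 →
      z = pair i f → ∀ a, pair f a ∈ v 2 → ∀ i' f', pair i' f' ∈ v 0 → Child (v 3) (v 4) f f' →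
      (∃ w, pair a w ∈ f') → ∀ z', z' ∈ v 0 → z' = pair i' f' → ∃ y', pair z' y' ∈ v 1 ∧ y' ∈ y)
      (cons (V_ t.rank) (cons R (cons G (cons B fun _ => hier t))))
      (cons_in h.N_mem (cons_in r1 (cons_in (h.of_sub s1) (cons_in (h.of_sub hB)
        fun _ => h.hier_mem))))).1 fun z y hy i f _ e a ha i' f' hf' c1 c2 z' hz' e' => by
        obtain ⟨-, rfl⟩ := (r0 z y).1 hy
        obtain ⟨h4, rfl⟩ := (s0 f a).1 ha
        subst e e'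
        obtain ⟨h5, h6⟩ := (hA f h4.2).2 f' ⟨snd_in tr hf', c1, c2⟩
        refine ⟨_, (r0 _ _).2 ⟨⟨hz', by rw [snd_pair]; exact h5⟩, rfl⟩, h3 _ _ hz' ?_⟩
        simp only [σ, fst_pair, snd_pair]
        exact Prod.Lex.toLex_lt_toLex.2 (Or.inl h6)
  have p3 : ∀ K z y, pair z y ∈ j^[K] R → ∀ i f, pair i f ∈ j^[K] (V_ t.rank) → z = pair i f →
      ∃ a, pair f a ∈ j^[K] G := fun K =>
    ((h.el.iter K).tf3 (fun N R G => ∀ z y, pair z y ∈ R → ∀ i f, pair i f ∈ N → z = pair i f →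
      ∃ a, pair f a ∈ G) h.N_mem r1 (h.of_sub s1)).1 fun z y hy i f hf e => by
        obtain ⟨h4, -⟩ := (r0 z y).1 hy
        subst e
        rw [snd_pair] at h4
        exact ⟨_, (s0 f _).2 ⟨⟨snd_in tr hf, h4.2⟩, rfl⟩⟩
  let Inv : ℕ → ZFSet.{u} → Prop := fun K x => ∃ i s, pair (nat i) s ∈ j^[K] (V_ t.rank) ∧
    pair (pair (nat i) s) x ∈ j^[K] R ∧ ∃ F r, Mon j t B F ∧
    gr F (j^[r] (V_ t.rank)) ∈ j^[K + i + 1] (V_ t.rank) ∧
    Child (j^[K + i + 1] B) (j^[K + i + 1] (hier t)) s (gr F (j^[r] (V_ t.rank))) ∧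
    ∃ a ∈ j^[r] (V_ t.rank), pair s a ∈ j^[K] G
  have q0 : ∀ K F n, Mon j t B F → gr F (j^[n] (V_ t.rank)) ∈ j^[K] (V_ t.rank) →
      ∃ i, ∀ x, pair (pair (nat i) (gr F (j^[n] (V_ t.rank)))) x ∈ j^[K] R → Inv K x :=
    fun K F n hF h4 => by
      obtain ⟨i, F', r, k1, k2, k3, k4⟩ := h.arrive h0 hB hF n K
      refine ⟨i, fun x hx => ?_⟩
      have h5 := h.Nn_pair K (n0 K i) h4
      obtain ⟨a, ha⟩ := p3 K _ x hx _ _ h5 rfl
      exact ⟨i, _, h5, hx, F', r, k1, k3, k4, a,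
        h.Nn_mono k2 (snd_in (h.Nn_tr K) (h.iter_sub s1 K ha)), ha⟩
  have q1 : ∃ x, Inv (0 + 1) x := by
    have m0 : Mon j t B fun x => x :=
      ⟨fun _ _ => Iff.rfl, fun _ _ _ _ => rfl, fun n => ⟨n, le_rfl, rfl, fun _ hx => hx⟩⟩
    have h4 : gr (fun x => x) (j^[0] (V_ t.rank)) ∈ j^[0 + 1] (V_ t.rank) :=
      h.Nn_sub 1 (h.Nn_succ 0) fun z hz => by
        obtain ⟨x, hx, rfl⟩ := mem_img.1 hz
        exact pair_mem_V h.lim hx hx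
    obtain ⟨i, hi⟩ := q0 _ _ 0 m0 h4
    have h5 := h.Nn_pair _ (n0 _ i) h4
    refine ((h.el.tf3 (fun N R g => ∀ i f, pair i f ∈ N → (∀ x y, pair x y ∈ f → x = y) →
      pair g g ∈ f → ∀ z, z ∈ N → z = pair i f → ∃ y, pair z y ∈ R) h.N_mem r1
      (h.of_mem (ord_mem_V hg))).1 (fun i f hf h6 h7 z hz e => ?_) _ _ h5
      (fun x y hy => (pair_mem_gr.1 hy).2) ?_ _ h5 rfl).imp hi
    · subst e
      exact ⟨_, (r0 _ _).2 ⟨⟨hz, by
        rw [snd_pair]; exact by_contra fun h8 => hn ⟨f, snd_in tr hf, h8, h6, h7⟩⟩, rfl⟩⟩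
    · rw [h.fix g hg]
      exact pair_mem_gr.2 ⟨ord_mem_V hg, rfl⟩
  have q2 : ∀ n x, Inv (n + 1) x → ∃ y x', pair x y ∈ j^[n + 1] (gr j (j^[1] (V_ t.rank))) ∧
      x' ∈ y ∧ Inv (n + 1 + 1) x' := fun n x hx => by
    generalize n + 1 = K at hx ⊢
    obtain ⟨i, s, k1, k2, F, r, k3, k4, k5, a, k6, k7⟩ := hx
    obtain ⟨y, y1, y2⟩ := p0 K _ x k2
    have k8 := h.Nn_mono (Nat.le_succ K) k1
    have k9 := (h.iter_iff s1 (Nat.le_succ K) (h.iter_sub s1 K k7)).2 k7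
    cases i with
    | zero =>
      obtain ⟨i, hi⟩ := q0 (K + 1) F r k3 k4
      have h5 := h.Nn_pair _ (n0 _ i) k4
      obtain ⟨x', h6, h7⟩ := p2 (K + 1) _ y y2 _ _ k8 rfl a k9 _ _ h5 k5
        ⟨_, pair_mem_gr.2 ⟨k6, rfl⟩⟩ _ h5 rfl
      exact ⟨y, x', y1, h7, hi x' h6⟩
    | succ i =>
      have h5 := h.Nn_pair _ (n0 _ i) (snd_in (h.Nn_tr _) k8)
      obtain ⟨x', h6, h7⟩ := p1 (K + 1) _ y y2 _ _ k8 rfl (nat i)
        (by rw [nat_succ]; exact mem_insert _ _) _ h5 rfl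
      rw [show K + (i + 1) + 1 = K + 1 + i + 1 by omega] at k4 k5
      exact ⟨y, x', y1, h7, i, s, h5, h6, F, r, k3, k4, k5, a, k6, k9⟩
  choose! Y S t1 t2 t3 using q2
  obtain ⟨x0, hx0⟩ := q1
  let x : ℕ → ZFSet.{u} := fun n => Nat.rec x0 S n
  have x1 : ∀ n, Inv (n + 1) (x n) := fun n => by
    induction n with
    | zero => exact hx0
    | succ n ih => exact t3 n _ ih
  exact h.wf ⟨1, x, fun n => Y n (x n), fun n => ⟨⟨_, g0, fun z hz =>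
    (mem_img.1 hz).imp fun _ ha => ha.2.symm, t1 n _ (x1 n)⟩, t2 n _ (x1 n)⟩⟩

end

theorem branch_pres {B g : ZFSet.{u}} (hg : g ∈ t) (F : ℕ → ZFSet.{u})
    (f2 : ∀ n, Child B (hier t) (F n) (F (n + 1)))
    (r3 : ∀ x y, pair x y ∈ F 0 → x = y) (r4 : pair g g ∈ F 0) :
    ∃ a : ℕ → ZFSet.{u}, (∀ n, a n ∈ t) ∧ (∀ n x y, pair x y ∈ F n → x ∈ V_ (a n).rank) ∧
      (∀ n, pair (a n) (a (n + 1)) ∈ F (n + 1)) ∧ g ∈ a 0 ∧
      ∀ L ∈ t, (∀ x, x ∈ L ↔ ∃ n, x ∈ a n) → ∃ e, Pres L B (a 0) e := by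
  choose a a' a1 D _ D' _ a2 a3 a4 a5 a6 a7 using f2
  have b1 := fun n => pair_mem_gr.1 (a2 n).1
  have b2 := fun n => pair_mem_gr.1 (a3 n).1
  have o1 : ∀ n, (a n).IsOrdinal := fun n => h.ord.mem (b1 n).1
  have b3 : ∀ n, D' n = D (n + 1) := fun n => ZFSet.ext fun x =>
    ⟨fun hx => ((a3 n).2.1 x hx).elim fun y => (a2 _).2.2 x y,
      fun hx => ((a2 _).2.1 x hx).elim fun y => (a3 n).2.2 x y⟩
  have b4 : ∀ n, a' n = a (n + 1) := fun n => by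
    have := congrArg rank ((b2 n).2.trans ((b3 n).trans (b1 _).2.symm))
    rwa [rank_vonNeumann, rank_vonNeumann, (h.ord.mem (b2 n).1).rank_inj (o1 _)] at this
  simp only [b4] at a1 a4
  refine ⟨a, fun n => (b1 n).1, fun n x y hy => (b1 n).2 ▸ (a2 n).2.2 x y hy, a1, ?_,
    fun L l6 l1 => ?_⟩
  · have h1 := (a2 0).2.2 g g r4
    rw [← (b1 0).2, mem_vonNeumann] at h1
    exact ((h.ord.mem hg).rank_lt_iff_mem (o1 0)).1 h1
  let U : ZFSet.{u} := ⋃₀ range F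
  have u1 : ∀ n z, z ∈ F n → z ∈ U := fun n z hz => mem_sUnion.2 ⟨_, mem_range.2 ⟨n, rfl⟩, hz⟩
  have u2 : ∀ z, z ∈ U → ∀ᶠ k in atTop, z ∈ F (k + 1) := fun z hz => by
    obtain ⟨_, h1, h2⟩ := mem_sUnion.1 hz
    obtain ⟨n, rfl⟩ := mem_range.1 h1
    exact eventually_atTop.2 ⟨n, fun k hk =>
      monotone_nat_of_le_succ (f := F) a5 (hk.trans (Nat.le_succ k)) h2⟩
  have u3 : ∀ x y, pair x y ∈ U → app U x = y := fun x y h1 => app_eq h1 fun y' h2 => by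
    obtain ⟨k, h3, h4⟩ := ((u2 _ h1).and (u2 _ h2)).exists
    exact (a7 k).1 x y h3 y' h4
  have l2 : ∀ n, a n ∈ L := fun n => (l1 _).2 ⟨_, a4 n⟩
  have l3 : L.IsOrdinal := h.ord.mem l6
  have l4 : ∀ o < L.rank, ∃ n, o < (a n).rank := fun o ho =>
    ((l1 _).1 (mem_of_rank l3 ho)).imp fun n hn => by
      simpa using rank_lt_of_mem hn
  have l5 : ∀ x ∈ V_ L.rank, pair x (app U x) ∈ U ∧ app U x ∈ V_ L.rank := fun x hx => by
    obtain ⟨n, hn⟩ := l4 _ (mem_vonNeumann.1 hx)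
    obtain ⟨y, hy⟩ := (a2 n).2.1 x ((b1 n).2 ▸ mem_vonNeumann.2 hn)
    rw [u3 x y (u1 n _ hy)]
    have h1 := a6 n hy
    rw [b3, ← (b1 _).2] at h1
    exact ⟨u1 n _ hy, vonNeumann_subset_of_le (rank_lt_of_mem (l2 _)).le
      (snd_in (isTransitive_vonNeumann _) h1)⟩
  have l7 : ∀ x ∈ V_ L.rank, ∀ y ∈ V_ L.rank, pair x y ∈ V_ L.rank := fun x hx y hy =>
    pair_mem_V (fun o ho => (l4 o ho).elim fun n hn =>
      (succ_le_of_lt hn).trans_lt (rank_lt_of_mem (l2 n))) hx hy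
  refine ⟨app U, l2 0, fun x hx => ?_, fun b hb => ?_, l7,
    fun x hx => (l5 x hx).2, fun x hx y hy => ?_, fun x hx => ?_⟩
  · obtain ⟨y, hy⟩ := (a2 0).2.1 x ((b1 0).2 ▸ hx)
    rw [u3 x y (u1 0 _ hy), r3 x y hy]
  · refine ((l1 b).1 hb).imp fun n hn => ?_
    have : ∀ n, (app U)^[n] (a 0) = a n := fun n => by
      induction n with
      | zero => rfl
      | succ n ih => rw [iterate_succ_apply', ih, u3 _ _ (u1 _ _ (a1 n))]
    rwa [this]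
  · obtain ⟨k, h1, h2, h3⟩ := ((u2 _ (l5 x hx).1).and ((u2 _ (l5 y hy).1).and
      (u2 _ (l5 _ (l7 x hx y hy)).1))).exists
    exact (a7 k).2.2 _ _ h1 _ _ h2 _ _ h3 rfl
  · obtain ⟨k, h1⟩ := (u2 _ (l5 x hx).1).exists
    exact (a7 k).2.1 _ _ h1

theorem tree_club {B g : ZFSet.{u}} (h0 : om ∈ t) (hB : B ⊆ V_ t.rank) (hg : g ∈ t) :
    ∃ c, Club t c ∧
    ∀ L ∈ c, CofOmega Set.univ L → ∃ k e, g ∈ k ∧ Pres L B k e := by
  classical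
  have hr := h.regular h0
  obtain ⟨f0, r1, r2, r3, r4⟩ := h.win h0 hB hg
  choose! S s0 s4 using fun f a => not_lo (t := t) (B := B) (f := f) (a := a)
  have n0 : ∀ d ∈ t, ∃ b ∈ t, ∀ z ∈ V_ d.rank, S (fst z) (snd z) ∈ V_ t.rank →
      S (fst z) (snd z) ∈ V_ b.rank := fun d hd => by
    obtain ⟨b, b1, b2⟩ := hr.bddV (h.card_lt (vonNeumann_mem_of_lt (rank_lt_of_mem hd)))
      (fun z => if S (fst z) (snd z) ∈ V_ t.rank then (S (fst z) (snd z)).rank.toZFSet else ∅)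
      fun z _ => by
        split_ifs with e
        exacts [mem_of_rank h.ord (mem_vonNeumann.1 e), hr.empty_mem]
    refine ⟨b, b1, fun z hz e => mem_vonNeumann.2 ?_⟩
    have := rank_lt_of_mem (b2 z hz)
    rwa [if_pos e, Ordinal.rank_toZFSet] at this
  choose! N n1 n2 using n0
  have r5 := mem_of_rank h.ord (mem_vonNeumann.1 r1)
  refine ⟨t.sep fun L => f0.rank.toZFSet ∈ L ∧ ∀ d ∈ L, N d ∈ L, ⟨sep_subset, fun b hb => ?_,
    fun L hL ⟨b, hb⟩ h1 => mem_sep.2 ⟨hL, ?_, fun d hd => ?_⟩⟩, fun L hL l0 => ?_⟩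
  · obtain ⟨c, c1, c2, c3⟩ := exists_bound2 h.ord hb r5
    obtain ⟨L, l1, l2, l3⟩ := hr.exists_closed N n1 c1
    exact ⟨L, mem_sep.2 ⟨l1, (isOrdinal_toZFSet _).mem_of_subset_of_mem (h.ord.mem l1) c3 l2, l3⟩,
      (h.ord.mem hb).mem_of_subset_of_mem (h.ord.mem l1) c2 l2⟩
  · obtain ⟨x, x1, -, x3⟩ := h1 b hb
    exact (h.ord.mem hL).mem_trans (mem_sep.1 x1).2.1 x3
  · obtain ⟨x, x1, x2, x3⟩ := h1 d hd
    exact (h.ord.mem hL).mem_trans ((mem_sep.1 x1).2.2 d x2) x3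
  obtain ⟨l1, l2, l3⟩ := mem_sep.1 hL
  have l5 := CofOmega.lim l0
  have l6 : ∀ o < L.rank, succ o < L.rank := fun o ho => by
    obtain ⟨c, c1, c2⟩ := l5 _ (mem_of_rank l0.1 ho)
    have := rank_lt_of_mem c2
    rw [Ordinal.rank_toZFSet] at this
    exact (succ_le_of_lt this).trans_lt (rank_lt_of_mem c1)
  obtain ⟨lo, f, -, q1, q2⟩ := l0
  have q3 : ∀ n, app f (nat n) ∈ L := fun n => q1.app_mem' (nat_mem_om n)
  let F : ℕ → ZFSet.{u} := fun n => Nat.rec f0 (fun n x => S x (app f (nat n))) n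
  have f1 : ∀ n, F n ∈ V_ L.rank ∧ ¬ ∃ o, Lo t B o (F n) := fun n => by
    induction n with
    | zero => exact ⟨mem_vonNeumann.2 (Ordinal.rank_toZFSet f0.rank ▸ rank_lt_of_mem l2), r2⟩
    | succ n ih =>
      have h1 := h.ord.mem_trans (q3 n) l1
      refine ⟨?_, s4 _ _ ih.2 h1⟩
      obtain ⟨d, d1, d2⟩ := exists_level lo l5
        (mem_vonNeumann.1 (pair_mem_V l6 ih.1 (ord_mem_V (q3 n))))
      have h2 := n2 d (h.ord.mem_trans d1 l1) _ (mem_vonNeumann.2 d2)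
      rw [fst_pair, snd_pair] at h2
      exact vonNeumann_subset_of_le (rank_lt_of_mem (l3 d d1)).le
        (h2 (s0 _ _ ih.2 h1).1)
  obtain ⟨a, a1, a2, a3, a4, a5⟩ := h.branch_pres hg F
    (fun n => (s0 _ _ (f1 n).2 (h.ord.mem_trans (q3 n) l1)).2.1) r3 r4
  refine (a5 L l1 fun x => ⟨fun hx => ?_, fun ⟨n, hn⟩ => ?_⟩).elim fun e he => ⟨_, e, a4, he⟩
  · obtain ⟨i, y, h1, h2⟩ := q2 x hx
    obtain ⟨n, rfl⟩ := mem_om_nat (pair_mem_prod.1 (q1.1 h1)).1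
    obtain ⟨z, hz⟩ := (s0 _ _ (f1 n).2 (h.ord.mem_trans (q3 n) l1)).2.2
    have h3 := ((lo.mem (q3 n)).rank_lt_iff_mem (h.ord.mem (a1 (n + 1)))).1
      (mem_vonNeumann.1 (a2 (n + 1) _ z hz))
    rw [q1.app_eq h1] at h3
    exact ⟨n + 1, (h.ord.mem (a1 _)).mem_trans h2 h3⟩
  · have tr := isTransitive_vonNeumann L.rank
    exact lo.mem_trans hn (((h.ord.mem (a1 n)).rank_lt_iff_mem lo).1
      (mem_vonNeumann.1 (fst_in tr (tr.mem_trans (a3 n) (f1 (n + 1)).1))))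

theorem club_exact1 (h0 : om ∈ t) (hs : StronglyMeasurable Set.univ t) :
    ∃ c, Club t c ∧ ∀ l ∈ c, CofOmega Set.univ l → Exact1 l := by
  have : Tm Set.univ On (fun _ => t) := Tm.ofOrd h.ord
  have rom : om.{u}.rank = Ordinal.omega0 := Ordinal.rank_toZFSet _
  obtain ⟨F, f0, f1⟩ := od_choice (C := Set.univ) (t.sep fun l => ¬ Exact1 l)
    (fun l A => A ⊆ vC Set.univ l ∧ ¬ PresI l (diag t l A)) fun l hl => by
      have hlt := (mem_sep.1 hl).1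
      have hlo := h.ord.mem hlt
      by_contra h2
      refine (mem_sep.1 hl).2 ⟨hlo, fun A a1 a2 => ?_⟩
      obtain ⟨k, e, k0, hP⟩ := (presI_iff hlo).1
        (by_contra fun h3 => h2 ⟨A, a1, vC_rank hlo ▸ a2, h3⟩)
      have k1 : Ordinal.omega0 ≤ k.rank := rom ▸ (rank_lt_of_mem k0).le
      exact ⟨e, k, emb_of_diag h.ord h.lim hlt a2 (k1.trans (rank_lt_of_mem hP.mem).le)
        (fun x hx => hP.fix x (vonNeumann_subset_of_le k1 hx)) hP.clo hP.map hP.com hP.pre,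
        hP.mem, fun a ha => hP.fix a (ord_mem_V ha), hP.cof⟩
  have := Tm.one (C := Set.univ) (A := On) F
  obtain ⟨k0, hk0, Bs, c', c1, c2⟩ := coh hs (fun _ hx => h.card_lt hx)
    (fun l => diag t l (F l)) fun l hl => diag_subset (h.ord.mem hl)
  obtain ⟨c, hc, c3⟩ := h.tree_club h0 (B := (V_ t.rank).sep fun z => snd z ∈ Bs (fst z))
    sep_subset (union_mem h.ord hk0 h0)
  refine ⟨_, (unc_of_regular hs.1).club_inter hc c1, fun L hL l1 => by_contra fun hne => ?_⟩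
  obtain ⟨l2, l3⟩ := mem_inter.1 hL
  obtain ⟨k, e, hk, hP⟩ := c3 L l2 l1
  obtain ⟨i, hi, h2⟩ := c2 L l3 l1
  have h3 : ∀ x, x ⊆ k0 ∪ om → x.rank < k.rank := fun x hx =>
    (rank_mono hx).trans_lt (rank_lt_of_mem hk)
  have i1 : i ∈ V_ k.rank := mem_vonNeumann.2
    ((rank_lt_of_mem hi).trans (h3 k0 fun _ hx => mem_union.2 (Or.inl hx)))
  have i2 : i ∈ V_ L.rank := vonNeumann_subset_of_le (rank_lt_of_mem hP.mem).le i1
  have h4 : ∀ x ∈ V_ L.rank, (x ∈ diag t L (F L) ↔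
      pair i x ∈ (V_ t.rank).sep fun z => snd z ∈ Bs (fst z)) := fun x hx => by
    rw [← h2, mem_inter, mem_sep, fst_pair, snd_pair, and_iff_left hx, and_iff_right
      (vonNeumann_subset_of_le (rank_lt_of_mem (hc.1 l2)).le (hP.clo i i2 x hx))]
  refine (f1 L (mem_sep.2 ⟨hc.1 l2, hne⟩) trivial).2 ((presI_iff l1.1).2 ⟨k, e,
    ((isOrdinal_toZFSet _).rank_lt_iff_mem (l1.1.mem hP.mem)).1
      (h3 _ fun _ hx => mem_union.2 (Or.inr hx)),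
    hP.mem, hP.fix, hP.cof, hP.clo, hP.map, hP.com, fun x hx => ?_⟩)
  rw [h4 x hx, h4 _ (hP.map x hx), hP.pre _ (hP.clo i i2 x hx), hP.com i i2 x hx, hP.fix i i1]

theorem club_exact (h0 : om ∈ t) (hs : StronglyMeasurable Set.univ t) :
    ∃ c, Club t c ∧ ∀ l ∈ c, CofOmega Set.univ l → Exact l := by
  obtain ⟨c, h1, h2⟩ := h.club_exact1 h0 hs
  obtain ⟨c', h3, h4⟩ := (unc_of_regular hs.1).null_bdd h0
  refine ⟨_, (unc_of_regular hs.1).club_inter h1 h3, fun l hl h5 => ?_⟩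
  obtain ⟨h6, h7⟩ := mem_inter.1 hl
  refine (h2 l h6 h5).family (by_contra fun h8 => h4 l ?_ h7)
  rw [(isOrdinal_toZFSet _).notMem_iff_subset h5.1,
    h5.1.subset_iff_eq_or_mem (isOrdinal_toZFSet _)] at h8
  exact mem_insert_iff.2 h8

end CE

end Pool.Agent.MP_ecfd11_lc.H13X
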