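import Pool.Agent.MP_ecfd11_lc.H13X.Calc

/-!
Coherence of ordinal definable sequences of subsets of `V_l` below a strongly measurable cardinal.
-/

set_option synthInstance.maxSize 4000

namespace Pool.Agent.MP_ecfd11_lc.H13X

open Pool.Agent.MP_ecfd11_lc.H20

universe u

open ZFSet Cardinal Function

theorem vC_ord {x : ZFSet.{u}} (hx : x.IsOrdinal) : vC Set.univ x = vonNeumann x.rank := by
  ext z
  conv_lhs => rw [← hx.toZFSet_rank_eq]
  rw [mem_vC innerModel_univ, mem_vonNeumann]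
  simp

theorem mem_vC_ord {x z : ZFSet.{u}} (hx : x.IsOrdinal) : z ∈ vC Set.univ x ↔ rank z < rank x := by
  rw [vC_ord hx, mem_vonNeumann]

/-- Every set of rank below a limit ordinal `l` lies in `V_a` for some `a ∈ l`. -/
theorem exists_level {l z : ZFSet.{u}} (hl : l.IsOrdinal) (h : ∀ b ∈ l, ∃ c ∈ l, b ∈ c)
    (hz : rank z < rank l) : ∃ a ∈ l, rank z < rank a := by
  obtain ⟨c, hc, h1⟩ := h (rank z).toZFSet (((isOrdinal_toZFSet _).rank_lt_iff_mem hl).1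
    (by rwa [Ordinal.rank_toZFSet]))
  exact ⟨c, hc, by simpa using rank_lt_of_mem h1⟩

theorem CofOmega.lim {l : ZFSet.{u}} (h : CofOmega Set.univ l) : ∀ b ∈ l, ∃ c ∈ l, b ∈ c := by
  obtain ⟨-, f, -, f1, f2⟩ := h
  intro b hb
  obtain ⟨n, y, h1, h2⟩ := f2 b hb
  exact ⟨y, (pair_mem_prod.1 (f1.1 h1)).2, h2⟩

theorem exists_not_null {l S T : ZFSet.{u}} (hS : ¬ Null l S) (hT : Null l T) :
    ∃ x ∈ S, x ∈ l ∧ x ∉ T := by
  by_contra h
  push Not at h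
  exact hS (hT.mono h)

variable {t : ZFSet.{u}} (D : ZFSet.{u} → ZFSet.{u})

/-- The points of cofinality `ω` at which `B` agrees with the sequence `D`. -/
noncomputable def agree (t B : ZFSet.{u}) : ZFSet.{u} :=
  t.sep fun l => CofOmega Set.univ l ∧ B ∩ vC Set.univ l = D l

/-- An atom of the club filter determines a set that agrees with `D` on it. -/
theorem coh_atom (hl : Regular Set.univ t) (hsl : ∀ x ∈ vonNeumann t.rank, card x < card t)
    [Tm Set.univ On (fun v => D (v 0))] (hD : ∀ l ∈ t, D l ⊆ vonNeumann l.rank) {S : ZFSet.{u}}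
    (s1 : ∀ l ∈ S, l ∈ t ∧ CofOmega Set.univ l) (s2 : ¬ Null t S)
    (s3 : ∀ X, OD Set.univ X → Null t (S ∩ X) ∨ Null t (S \ X)) :
    ∃ B, B ⊆ vC Set.univ t ∧ Null t (S \ agree D t B) := by
  have hu := unc_of_regular hl
  have : Tm Set.univ On (fun _ => t) := Tm.ofOrd hl.1
  have := Tm.one (C := Set.univ) (A := On) D
  have h1 : ∀ a ∈ t, ∃ x, x ⊆ vC Set.univ a ∧
      Null t (S.sep fun l => D l ∩ vC Set.univ a ≠ x) := fun a ha => by
    have hao := hl.1.mem ha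
    have : Tm Set.univ On (fun _ => a) := Tm.ofOrd hao
    have h2 : ¬ ∀ x ∈ powerset (vC Set.univ a), Null t (S.sep fun l => D l ∩ vC Set.univ a = x) :=
      fun h2 => s2 (null_iUnion hl (hsl _ (mem_vonNeumann.2 (by
        rw [vC_ord hao, rank_powerset, rank_vonNeumann]
        have := rank_lt_of_mem (hl.succ_mem ha)
        rwa [rank_insert, max_eq_left (Order.le_succ _)] at this))) _ h2 fun y hy _ =>
          ⟨_, mem_powerset.2 fun z hz => (mem_inter.1 hz).2, mem_sep.2 ⟨hy, rfl⟩⟩)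
    push Not at h2
    obtain ⟨x, hx, h2⟩ := h2
    obtain ⟨l, h3, h4, -⟩ := exists_not_null h2 hu.null_empty
    obtain ⟨-, rfl⟩ := mem_sep.1 h3
    have : Tm Set.univ On (fun _ => l) := Tm.ofOrd (hl.1.mem h4)
    refine ⟨_, mem_powerset.1 hx, ?_⟩
    rcases s3 (t.sep fun y => D y ∩ vC Set.univ a = D l ∩ vC Set.univ a)
      (od_iff.2 inferInstance) with h5 | h5
    · exact absurd (h5.mono fun y hy hy' => mem_inter.2
        ⟨(mem_sep.1 hy).1, mem_sep.2 ⟨hy', (mem_sep.1 hy).2⟩⟩) h2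
    · exact h5.mono fun y hy _ => mem_sdiff.2
        ⟨(mem_sep.1 hy).1, fun h6 => (mem_sep.1 hy).2 (mem_sep.1 h6).2⟩
  choose! X x1 x2 using h1
  have h2 : ∀ a ∈ t, ⋃₀ img X t ∩ vC Set.univ a = X a := fun a ha => by
    ext z
    rw [mem_inter, mem_sUnion]
    refine ⟨fun ⟨⟨_, h2, h3⟩, h4⟩ => ?_, fun h => ⟨⟨_, mem_img.2 ⟨a, ha, rfl⟩, h⟩, x1 a ha h⟩⟩
    obtain ⟨b, hb, rfl⟩ := mem_img.1 h2
    obtain ⟨l, h5, -, h6⟩ := exists_not_null s2 (hu.null_union (x2 a ha) (x2 b hb))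
    simp only [mem_union, mem_sep, h5, true_and, not_or, not_not] at h6
    rw [← h6.2] at h3
    rw [← h6.1]
    exact mem_inter.2 ⟨(mem_inter.1 h3).1, h4⟩
  refine ⟨⋃₀ img X t, fun z hz => ?_, ?_⟩
  · obtain ⟨_, h3, h4⟩ := mem_sUnion.1 hz
    obtain ⟨b, hb, rfl⟩ := mem_img.1 h3
    exact (mem_vC_ord hl.1).2
      (((mem_vC_ord (hl.1.mem hb)).1 (x1 b hb h4)).trans (rank_lt_of_mem hb))
  by_contra h3
  have h4 : ∀ l ∈ S \ agree D t (⋃₀ img X t), ∃ a ∈ l, D l ∩ vC Set.univ a ≠ X a := fun l h4 => by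
    obtain ⟨h5, h6⟩ := mem_sdiff.1 h4
    obtain ⟨h7, h8⟩ := s1 l h5
    by_contra h9
    push Not at h9
    refine h6 (mem_sep.2 ⟨h7, h8, ZFSet.ext fun z => ?_⟩)
    have key : rank z < rank l → (z ∈ ⋃₀ img X t ↔ z ∈ D l) := fun hz => by
      obtain ⟨a, ha, h10⟩ := exists_level h8.1 (CofOmega.lim h8) hz
      have h11 := ZFSet.ext_iff.1 ((h2 a (hl.1.mem_trans ha h7)).trans (h9 a ha).symm) z
      simpa only [mem_inter, (mem_vC_ord (h8.1.mem ha)).2 h10, and_true] using h11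
    rw [mem_inter, mem_vC_ord h8.1]
    exact ⟨fun h => (key h.2).1 h.1, fun h => ⟨(key (mem_vonNeumann.1 (hD l h7 h))).2 h,
      mem_vonNeumann.1 (hD l h7 h)⟩⟩
  choose! F f1 f2 using h4
  obtain ⟨a, ha, h5⟩ := fodor hl h3 F fun x hx _ _ => f1 x hx
  exact h5 ((x2 a ha).mono fun y hy _ => mem_sep.2 ⟨(mem_sdiff.1 (mem_sep.1 hy).1).1,
    (mem_sep.1 hy).2 ▸ f2 y (mem_sep.1 hy).1⟩)

/-- Few sets agree with `D` on a stationary set. -/
theorem coh_few (hl : Regular Set.univ t) [Tm Set.univ On (fun v => D (v 0))] {k m : ZFSet.{u}}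
    (hk : k ∈ t) (hk' : k ≠ ∅) (h2 : ¬ ∃ s, HOD Set.univ s ∧ IsPartition Set.univ t k s)
    (hm : m ∈ t) (hkm : card k < card m) :
    card ((powerset (vC Set.univ t)).sep fun B => ¬ Null t (agree D t B)) ≤ card m := by
  have hu := unc_of_regular hl
  have : Tm Set.univ On (fun _ => t) := Tm.ofOrd hl.1
  have := Tm.one (C := Set.univ) (A := On) D
  by_contra h0
  obtain ⟨G, g1, g2⟩ := exists_inj_of_card_le (not_le.1 h0).le
  simp only [mem_sep, mem_powerset] at g1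
  have h3 : ∀ i ∈ m, ∀ j ∈ m, ∃ a ∈ t, ∀ b : ZFSet.{u}, b.IsOrdinal → a ∈ b →
      G i ∩ vC Set.univ b = G j ∩ vC Set.univ b → i = j := fun i hi j hj => by
    by_cases e : G i = G j
    · exact ⟨k, hk, fun _ _ _ _ => g2 i hi j hj e⟩
    obtain ⟨z, hz⟩ := not_forall.1 fun h => e (ZFSet.ext h)
    have h3 : rank z < rank t := by
      by_cases h3 : z ∈ G i
      · exact (mem_vC_ord hl.1).1 ((g1 i hi).1 h3)
      · exact (mem_vC_ord hl.1).1 ((g1 j hj).1 (by tauto))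
    obtain ⟨a, ha, h4⟩ := exists_level hl.1 (fun b hb => hu.succ hb) h3
    refine ⟨a, ha, fun b hb hab e' => absurd ?_ hz⟩
    simpa only [mem_inter, (mem_vC_ord hb).2 (h4.trans (rank_lt_of_mem hab)), and_true] using
      ZFSet.ext_iff.1 e' z
  choose! A a1 a2 using h3
  choose! B b1 b2 using fun i (hi : i ∈ m) => hl.bddV (hl.card_lt hm) (A i) (a1 i hi)
  obtain ⟨a, ha, h4⟩ := hl.bddV (hl.card_lt hm) B b1
  have hao := hl.1.mem ha
  have : Tm Set.univ On (fun _ => a) := Tm.ofOrd hao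
  obtain ⟨W, hW⟩ : ∃ W, W = t.sep fun l => ¬ Null t (t.sep fun y => CofOmega Set.univ y ∧
    D y ∩ vC Set.univ a = D l ∩ vC Set.univ a) := ⟨_, rfl⟩
  have : Tm Set.univ On (fun _ => W) := hW ▸ inferInstance
  have hWt : W ⊆ t := hW ▸ sep_subset
  obtain ⟨c, c0, c1, c2⟩ := exists_quot (C := Set.univ) W hl.1 (DInj.of_subset hWt)
    fun l => D l ∩ vC Set.univ a
  have := Tm.one (C := Set.univ) (A := On) c
  have h5 : ∀ i ∈ m, ∀ l ∈ agree D t (G i), a ∈ l →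
      D l ∩ vC Set.univ a = G i ∩ vC Set.univ a := fun i _ l h5 h6 => by
    obtain ⟨-, h7, h8⟩ := mem_sep.1 h5
    ext z
    rw [← h8, mem_inter, mem_inter, mem_inter, mem_vC_ord h7.1, mem_vC_ord hao]
    exact ⟨fun h => ⟨h.1.1, h.2⟩, fun h => ⟨⟨h.1, h.2.trans (rank_lt_of_mem h6)⟩, h.2⟩⟩
  have h6 : ∀ l ∈ t, l ∉ insert a a → a ∈ l := fun l h6 h7 => by
    rcases hao.mem_trichotomous (hl.1.mem h6) with h | h | h
    exacts [h, absurd (h ▸ mem_insert _ _) h7, absurd (mem_insert_of_mem _ h) h7]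
  have h7 : ∀ i ∈ m, ∃ l ∈ W, D l ∩ vC Set.univ a = G i ∩ vC Set.univ a := fun i hi => by
    obtain ⟨l, h7, h8, h9⟩ := exists_not_null (g1 i hi).2 (hu.null_bdd ha)
    refine ⟨l, hW ▸ mem_sep.2 ⟨h8, fun h10 => (g1 i hi).2
      ((hu.null_union h10 (hu.null_bdd ha)).mono fun y hy hy' => mem_union.2 ?_)⟩,
      h5 i hi l h7 (h6 l h8 h9)⟩
    by_cases h11 : y ∈ insert a a
    · exact Or.inr h11
    · exact Or.inl (mem_sep.2 ⟨hy', (mem_sep.1 hy).2.1,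
        (h5 i hi y hy (h6 y hy' h11)).trans (h5 i hi l h7 (h6 l h8 h9)).symm⟩)
  choose! L l1 l2 using h7
  have h8 : card m ≤ card (img c W) := card_le_of_inj (fun i => c (L i))
    (fun i hi => mem_img.2 ⟨_, l1 i hi, rfl⟩) fun i hi j hj e =>
      a2 i hi j hj a hao (hao.mem_trans (b2 i hi j hj) (h4 i hi))
        (by rw [← l2 i hi, ← l2 j hj, (c2 _ (l1 i hi) _ (l1 j hj)).1 e])
  have h9 : k ⊆ img c W := (c1.mem_or_subset (hl.1.mem hk)).resolve_left fun h =>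
    (hkm.trans_le h8).not_ge (card_mono ((hl.1.mem hk).subset_of_mem h))
  refine h2 (exists_part hl.1 (hl.1.mem hk) hk' (CofOmega Set.univ) (fun i x => x ∈ W ∧ c x = i)
    (fun i hi => stat_iff.2 ⟨sep_subset, fun h10 => ?_⟩)
    fun i _ j _ x _ e1 e2 => e1.2.symm.trans e2.2)
  obtain ⟨l, h11, rfl⟩ := mem_img.1 (h9 hi)
  have h12 := (mem_sep.1 (hW ▸ h11)).2
  refine h12 (h10.mono fun y hy hy' => ?_)
  obtain ⟨-, y1, y2⟩ := mem_sep.1 hy
  have h13 : y ∈ W := hW ▸ mem_sep.2 ⟨hy', y2 ▸ h12⟩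
  exact mem_sep.2 ⟨hy', y1, h13, (c2 y h13 l h11).2 y2⟩

theorem coh {t : ZFSet.{u}} (hs : StronglyMeasurable Set.univ t)
    (hsl : ∀ x ∈ vonNeumann t.rank, card x < card t) (D : ZFSet.{u} → ZFSet.{u})
    [Tm Set.univ On (fun v => D (v 0))] (hD : ∀ l ∈ t, D l ⊆ vonNeumann l.rank) :
    ∃ k ∈ t, ∃ (Bs : ZFSet.{u} → ZFSet.{u}) (c : ZFSet.{u}), Club t c ∧
      ∀ l ∈ c, CofOmega Set.univ l → ∃ i ∈ k, Bs i ∩ vonNeumann l.rank = D l := by
  obtain ⟨hl, k, hk, hk', h1, h2⟩ := hs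
  have hu := unc_of_regular hl
  have : Tm Set.univ On (fun _ => t) := Tm.ofOrd hl.1
  have := Tm.one (C := Set.univ) (A := On) D
  have hm : ((2 : Cardinal.{u}) ^ card k).ord.toZFSet ∈ t := hl.mem_of_card_lt (isOrdinal_toZFSet _) (by
    rw [card_ord', ← card_powerset]
    refine hsl _ (mem_vonNeumann.2 ?_)
    have := rank_lt_of_mem (hl.succ_mem hk)
    rwa [rank_insert, max_eq_left (Order.le_succ _), ← rank_powerset] at this)
  obtain ⟨G, hG⟩ := exists_surj_of_card_le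
    (coh_few D hl hk hk' h2 hm (by rw [card_ord']; exact cantor _))
  obtain ⟨R, hR⟩ : ∃ R, R = t.sep fun l => CofOmega Set.univ l ∧ ¬ ∃ B,
    B ∈ powerset (vC Set.univ t) ∧ B ∩ vC Set.univ l = D l ∧
      ¬ Null t (t.sep fun y => CofOmega Set.univ y ∧ B ∩ vC Set.univ y = D y) := ⟨_, rfl⟩
  have : Tm Set.univ On (fun _ => R) := hR ▸ inferInstance
  have hR1 : ∀ l ∈ R, l ∈ t ∧ CofOmega Set.univ l := fun l h =>
    ⟨(mem_sep.1 (hR ▸ h)).1, (mem_sep.1 (hR ▸ h)).2.1⟩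
  have h3 : Null t R := by
    by_contra h3
    obtain ⟨S, s1, -, s2, s3⟩ := exists_atom_gen hl hk h1 (od_iff.2 this)
      (fun l h => (hR1 l h).1) h3 fun T t0 t1 t2 => h2 (by
        have := Tm.one (C := Set.univ) (A := On) T
        exact exists_part hl.1 (hl.1.mem hk) hk' (CofOmega Set.univ) (fun i x => x ∈ T i)
          (fun i hi => stat_iff.2 ⟨sep_subset, fun h3 => (t1 i hi).2 (h3.mono fun x hx hx' =>
            mem_sep.2 ⟨hx', (hR1 x ((t1 i hi).1 hx)).2, hx⟩)⟩)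
          fun i hi j hj x _ => t2 i hi j hj x)
    obtain ⟨B, b1, b2⟩ := coh_atom D hl hsl hD (fun l h => hR1 l (s1 h)) s2 s3
    obtain ⟨l, h4, -, h5⟩ := exists_not_null s2 b2
    have h6 : l ∈ agree D t B := by_contra fun h => h5 (mem_sdiff.2 ⟨h4, h⟩)
    refine (mem_sep.1 (hR ▸ s1 h4)).2.2 ⟨B, mem_powerset.2 b1, (mem_sep.1 h6).2.2, fun h7 =>
      s2 ((hu.null_union h7 b2).mono fun y hy _ => mem_union.2 ?_)⟩
    by_cases h8 : y ∈ agree D t B
    exacts [Or.inl h8, Or.inr (mem_sdiff.2 ⟨hy, h8⟩)]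
  obtain ⟨c, c1, c2⟩ := h3
  refine ⟨_, hm, G, c, c1, fun l h4 h5 => ?_⟩
  obtain ⟨B, b1, b2, b3⟩ : ∃ B, B ∈ powerset (vC Set.univ t) ∧ B ∩ vC Set.univ l = D l ∧
      ¬ Null t (agree D t B) :=
    by_contra fun h => c2 l (hR ▸ mem_sep.2 ⟨c1.1 h4, h5, h⟩) h4
  obtain ⟨i, hi, rfl⟩ := hG B (mem_sep.2 ⟨b1, b3⟩)
  exact ⟨i, hi, vC_ord h5.1 ▸ b2⟩

end Pool.Agent.MP_ecfd11_lc.H13X
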