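import Pool.Agent.MP_ecfd11_lc.Defs

/-!
Rank-into-rank embeddings that preserve a predicate.
-/

namespace Pool.Agent.MP_ecfd11_lc.H13X

universe u

open ZFSet

/-- Any countably many stationary subsets of `cof(ω) ∩ l` reflect simultaneously at an ordinal
that has a club subset of size less than `d`. -/
def Reflects (d l : ZFSet.{u}) : Prop :=
  ∀ S : ℕ → ZFSet.{u}, (∀ n, Stat Set.univ l (S n) ∧ ∀ x ∈ S n, CofOmega Set.univ x) →
    ∃ b ∈ l, (∃ c, Club b c ∧ c.card < d.card) ∧ ∀ n, Stat Set.univ b (S n ∩ b)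

/-- `e` is an elementary embedding of the structure `(M, ∈, A)` into itself. -/
def Emb (M A : ZFSet.{u}) (e : ZFSet.{u} → ZFSet.{u}) : Prop :=
  (∀ x ∈ M, e x ∈ M) ∧ ∀ (φ : Fml) (v : ℕ → ZFSet.{u}), (∀ n, v n ∈ M) →
    (Sat M φ (cons A v) ↔ Sat M φ (cons A fun n => e (v n)))

/-- The `n`-th iterate of `j : M → M` sends `x` to `y`: `(x, y) ∈ jⁿ(g)` for a set `g ∈ M` of
pairs `(a, j a)`. -/
def Iter (M : ZFSet.{u}) (j : ZFSet.{u} → ZFSet.{u}) (n : ℕ) (x y : ZFSet.{u}) : Prop :=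
  ∃ g ∈ M, (∀ z ∈ g, ∃ a, z = pair a (j a)) ∧ pair x y ∈ j^[n] g

/-- `t` is the critical point of an elementary embedding `j : V_m → V_m` such that the direct
limit of the iterates of `j` is well-founded. -/
def I3wf (t : ZFSet.{u}) : Prop :=
  t.IsOrdinal ∧ ∃ (m : Ordinal.{u}) (j : ZFSet.{u} → ZFSet.{u}), t ∈ vonNeumann m ∧
    Emb (vonNeumann m) ∅ j ∧ (∀ a ∈ t, j a = a) ∧ j t ≠ t ∧
    ¬ ∃ (c : ℕ) (x y : ℕ → ZFSet.{u}), ∀ n,
      Iter (vonNeumann m) j (n + c) (x n) (y n) ∧ x (n + 1) ∈ y n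

/-- For every nonempty ordinal definable family `Y` of fewer than `l` subsets of `V_l` there is
one elementary embedding `V_l → V_l` that preserves all members of `Y` and whose critical sequence
has supremum `l`. -/
def Exact (l : ZFSet.{u}) : Prop :=
  l.IsOrdinal ∧ ∀ Y, OD Set.univ Y → Y ≠ ∅ → (∀ A ∈ Y, A ⊆ vonNeumann l.rank) →
    Y.card < l.card →
    ∃ (e : ZFSet.{u} → ZFSet.{u}) (k : ZFSet.{u}), (∀ A ∈ Y, Emb (vonNeumann l.rank) A e) ∧
      k ∈ l ∧ (∀ a ∈ k, e a = a) ∧ ∀ b ∈ l, ∃ n, b ∈ e^[n] k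

end Pool.Agent.MP_ecfd11_lc.H13X
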