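import Pool.Agent.MP_ecfd11_lc.H13X.Crit

/-!
The elementary diagram of `(V_l, ∈, A)` as a definable subset of `V_l`.
-/

set_option synthInstance.maxSize 4000

namespace Pool.Agent.MP_ecfd11_lc.H13X

universe u

open ZFSet Cardinal Order

/-- Exchange of the variables `0` and `1`. -/
def swp : ℕ → ℕ
  | 0 => 1
  | 1 => 0
  | n + 2 => n + 2

/-- Relativisation of a formula to the set named by the new variable `0`. -/
def rel : Fml → Fml
  | .mem i j => .mem (i + 1) (j + 1)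
  | .eq i j => .eq (i + 1) (j + 1)
  | .neg φ => .neg (rel φ)
  | .and φ ψ => .and (rel φ) (rel ψ)
  | .all φ => .all (.neg (.and (.mem 0 1) (.neg (ren swp (rel φ)))))

theorem sat_rel {U N : ZFSet.{u}} (h : N ⊆ U) (φ : Fml) (w : ℕ → ZFSet.{u}) :
    Sat U (rel φ) (cons N w) ↔ Sat N φ w := by
  induction φ generalizing w with
  | mem i j => rfl
  | eq i j => rfl
  | neg φ ih => exact not_congr (ih w)
  | and φ ψ ih1 ih2 => exact and_congr (ih1 w) (ih2 w)
  | all φ ih =>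
    have e : ∀ a, (fun n => cons a (cons N w) (swp n)) = cons N (cons a w) := fun a => by
      funext n
      rcases n with _ | _ | n <;> rfl
    simp only [rel, Sat, sat_ren, e, ih, cons_zero, cons_succ, not_and, not_not]
    exact ⟨fun h1 a ha => h1 a (h ha) ha, fun h1 a _ ha => h1 a ha⟩

/-- The list of the first `n` values of an assignment. -/
noncomputable def lst : ℕ → (ℕ → ZFSet.{u}) → ZFSet.{u}
  | 0, _ => ∅
  | n + 1, v => pair (v 0) (lst n fun i => v (i + 1))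

theorem asg_lst (n : ℕ) (v : ℕ → ZFSet.{u}) : ∀ i < n, asg (lst n v) i = v i := by
  induction n generalizing v with
  | zero => exact fun _ h => absurd h (Nat.not_lt_zero _)
  | succ n ih =>
    intro i hi
    rw [lst, asg_pair]
    cases i with
    | zero => rfl
    | succ i => exact ih _ i (Nat.lt_of_succ_lt_succ hi)

theorem lst_mem {M : ZFSet.{u}} (h0 : ∅ ∈ M) (hM : ∀ x ∈ M, ∀ y ∈ M, pair x y ∈ M) (n : ℕ)
    {v : ℕ → ZFSet.{u}} (hv : ∀ i, v i ∈ M) : lst n v ∈ M := by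
  induction n generalizing v with
  | zero => exact h0
  | succ n ih => exact hM _ (hv 0) _ (ih fun _ => hv _)

theorem lst_map {M : ZFSet.{u}} (h0 : ∅ ∈ M) (hM : ∀ x ∈ M, ∀ y ∈ M, pair x y ∈ M)
    {e : ZFSet.{u} → ZFSet.{u}} (e0 : e ∅ = ∅)
    (he : ∀ x ∈ M, ∀ y ∈ M, e (pair x y) = pair (e x) (e y)) (n : ℕ)
    {v : ℕ → ZFSet.{u}} (hv : ∀ i, v i ∈ M) : e (lst n v) = lst n fun i => e (v i) := by
  induction n generalizing v with
  | zero => exact e0
  | succ n ih => rw [lst, lst, he _ (hv 0) _ (lst_mem h0 hM n fun _ => hv _), ih fun _ => hv _]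

theorem code_mem (φ : Fml) : code.{u} φ ∈ V_ Ordinal.omega0 := by
  have hp : ∀ {x y : ZFSet.{u}}, x ∈ V_ Ordinal.omega0 → y ∈ V_ Ordinal.omega0 →
      pair x y ∈ V_ Ordinal.omega0 := fun hx hy =>
    pair_mem_V (fun _ ha => Ordinal.isSuccLimit_omega0.succ_lt ha) hx hy
  have hn : ∀ n, nat.{u} n ∈ V_ Ordinal.omega0 := fun n => mem_vonNeumann.2 (by
    rw [nat, Ordinal.rank_toZFSet]; exact Ordinal.natCast_lt_omega0 n)
  induction φ with
  | mem i j => exact hp (hn _) (hp (hn _) (hn _))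
  | eq i j => exact hp (hn _) (hp (hn _) (hn _))
  | neg φ ih => exact hp (hn _) ih
  | and φ ψ ih1 ih2 => exact hp (hn _) (hp ih1 ih2)
  | all φ ih => exact hp (hn _) ih

/-- The diagram of `(V_l, ∈, A)`, computed in `V_t`. -/
noncomputable def diag (t l A : ZFSet.{u}) : ZFSet.{u} :=
  (vC Set.univ l).sep fun z =>
    pair (vC Set.univ l) (pair A (snd z)) ∈ satSet (vC Set.univ t) (fst z)

instance Tm.diag (r s t : (ℕ → ZFSet.{u}) → ZFSet.{u}) [Tm Set.univ On r] [Tm Set.univ On s]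
    [Tm Set.univ On t] : Tm Set.univ On (fun v => diag (r v) (s v) (t v)) := by
  unfold H13X.diag; infer_instance

theorem vC_rank {x : ZFSet.{u}} (hx : x.IsOrdinal) : vC Set.univ x = V_ x.rank := by
  ext z
  conv_lhs => rw [← hx.toZFSet_rank_eq]
  rw [mem_vC innerModel_univ, mem_vonNeumann]
  simp

theorem diag_subset {t l A : ZFSet.{u}} (hl : l.IsOrdinal) : diag t l A ⊆ V_ l.rank :=
  vC_rank hl ▸ sep_subset

theorem mem_diag {t l A s : ZFSet.{u}} (ht : t.IsOrdinal) (hlim : ∀ a < t.rank, succ a < t.rank)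
    (hl : l ∈ t) (hA : A ⊆ V_ l.rank) (φ : Fml) (hs : pair (code (rel φ)) s ∈ V_ l.rank) :
    pair (code (rel φ)) s ∈ diag t l A ↔ Sat (V_ l.rank) φ (cons A (asg s)) := by
  have h1 := rank_lt_of_mem hl
  have h2 : V_ l.rank ⊆ V_ t.rank := vonNeumann_subset_of_le h1.le
  have h3 : pair (V_ l.rank) (pair A s) ∈ V_ t.rank :=
    pair_mem_V hlim (vonNeumann_mem_of_lt h1) (pair_mem_V hlim
      (mem_vonNeumann.2 ((subset_vonNeumann.1 hA).trans_lt h1))
      (h2 (snd_in (isTransitive_vonNeumann _) hs)))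
  rw [diag, mem_sep, vC_rank ht, vC_rank (ht.mem hl), fst_pair, snd_pair, and_iff_right hs,
    mem_satSet (fun _ ha _ hb => pair_mem_V hlim ha hb) _ h3, asg_pair, asg_pair, sat_rel h2]

/-- A map that commutes with pairing, fixes the hereditarily finite sets and preserves the
diagram is an elementary embedding. -/
theorem emb_of_diag {t l A : ZFSet.{u}} {e : ZFSet.{u} → ZFSet.{u}} (ht : t.IsOrdinal)
    (hlim : ∀ a < t.rank, succ a < t.rank) (hl : l ∈ t) (hA : A ⊆ V_ l.rank)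
    (hw : Ordinal.omega0 ≤ l.rank) (fix : ∀ x ∈ V_ Ordinal.omega0, e x = x)
    (clo : ∀ x ∈ V_ l.rank, ∀ y ∈ V_ l.rank, pair x y ∈ V_ l.rank)
    (map : ∀ x ∈ V_ l.rank, e x ∈ V_ l.rank)
    (com : ∀ x ∈ V_ l.rank, ∀ y ∈ V_ l.rank, e (pair x y) = pair (e x) (e y))
    (pre : ∀ x ∈ V_ l.rank, (x ∈ diag t l A ↔ e x ∈ diag t l A)) : Emb (V_ l.rank) A e := by
  refine ⟨map, fun φ v hv => ?_⟩
  have hs : V_ Ordinal.omega0 ⊆ V_ l.rank := vonNeumann_subset_of_le hw
  have h0 : (∅ : ZFSet.{u}) ∈ V_ Ordinal.omega0 :=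
    mem_vonNeumann.2 (by rw [rank_empty]; exact Ordinal.omega0_pos)
  have hc := code_mem.{u} (rel φ)
  have key : ∀ w : ℕ → ZFSet.{u}, (∀ n, w n ∈ V_ l.rank) →
      (pair (code (rel φ)) (lst (fv φ) w) ∈ diag t l A ↔ Sat (V_ l.rank) φ (cons A w)) :=
    fun w hw => by
      rw [mem_diag ht hlim hl hA φ (clo _ (hs hc) _ (lst_mem (hs h0) clo _ hw))]
      refine sat_congr φ fun n hn => ?_
      cases n with
      | zero => rfl
      | succ n => exact asg_lst _ _ n (Nat.lt_of_succ_lt hn)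
  have h1 := lst_mem (hs h0) clo (fv φ) hv
  rw [← key v hv, ← key _ fun n => map _ (hv n), pre _ (clo _ (hs hc) _ h1), com _ (hs hc) _ h1,
    fix _ hc, lst_map (hs h0) clo (fix _ h0) com _ hv]

end Pool.Agent.MP_ecfd11_lc.H13X
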