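import Pool.Agent.MP_ecfd11_lc.H13X.Local
import Pool.Agent.MP_ecfd11_lc.H13X.Conv

/-!
From one ordinal definable predicate to small ordinal definable families of predicates.
-/

set_option synthInstance.maxSize 4000

namespace Pool.Agent.MP_ecfd11_lc.H13X

open Pool.Agent.MP_ecfd11_lc.H20

universe u

open ZFSet Cardinal Order Function

theorem Exact.one {l : ZFSet.{u}} (h : Exact l) (h0 : om ∈ l) : Exact1 l := by
  refine ⟨h.1, fun A a1 a2 => ?_⟩
  have : Tm Set.univ On (fun _ => A) := od_iff.1 a1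
  obtain ⟨e, k, h1, h2⟩ := h.2 {A} (od_iff.2 inferInstance)
    (fun e => notMem_empty A (e ▸ mem_singleton.2 rfl))
    (fun B hB => mem_singleton.1 hB ▸ a2) (by
      rw [card_singleton]
      exact one_lt_aleph0.trans_le (card_om ▸ card_mono (h.1.subset_of_mem h0)))
  exact ⟨e, k, h1 A (mem_singleton.2 rfl), h2⟩

/-- The restrictions of the members of `Y` to `V_b`. -/
noncomputable def lev (Y b : ZFSet.{u}) : ZFSet.{u} := img (fun D => D ∩ V_ b.rank) Y

theorem fam {l Y m k : ZFSet.{u}} {e : ZFSet.{u} → ZFSet.{u}} (hl : l.IsOrdinal)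
    (lim : ∀ o < l.rank, succ o < l.rank) (el : El (V_ l.rank) e) (hm : m ∈ l)
    (hY : card Y ≤ card m) (hk : k ∈ l) (fix : ∀ a ∈ k, e a = a)
    (cof : ∀ b ∈ l, ∃ n, b ∈ e^[n] k)
    (pre : ∀ z ∈ gr (fun b => pair m (pair (V_ b.rank) (lev Y b))) l,
      e z ∈ gr (fun b => pair m (pair (V_ b.rank) (lev Y b))) l) :
    m ∈ k ∧ (∀ x ∈ V_ k.rank, e x = x) ∧ ∀ D ∈ Y, ∀ x ∈ V_ l.rank, (x ∈ D ↔ e x ∈ D) := by
  have tr := el.tr
  have v1 : ∀ b ∈ l, V_ b.rank ∈ V_ l.rank := fun b hb => vonNeumann_mem_of_lt (rank_lt_of_mem hb)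
  have v2 : ∀ b D : ZFSet.{u}, rank (D ∩ V_ b.rank) ≤ b.rank := fun b D =>
    subset_vonNeumann.1 fun x hx => (mem_inter.1 hx).2
  have v3 : ∀ b ∈ l, lev Y b ∈ V_ l.rank := fun b hb => mem_vonNeumann.2
    ((rank_le_iff.2 fun z hz => by
      obtain ⟨D, -, rfl⟩ := mem_img.1 hz
      exact lt_succ_iff.2 (v2 b D)).trans_lt (lim _ (rank_lt_of_mem hb)))
  have key : ∀ b ∈ l, e b ∈ l ∧ e m = m ∧ e (V_ b.rank) = V_ (e b).rank ∧
      e (lev Y b) = lev Y (e b) := fun b hb => by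
    have p1 := pair_mem_V lim (v1 b hb) (v3 b hb)
    have p2 := pair_mem_V lim (ord_mem_V hm) p1
    have := pre _ (pair_mem_gr.2 ⟨hb, rfl⟩)
    rw [el.pair (pair_mem_V lim (ord_mem_V hb) p2), el.pair p2, el.pair p1, pair_mem_gr, pair_inj,
      pair_inj] at this
    exact ⟨this.1, this.2.1.symm, this.2.2.1.symm, this.2.2.2.symm⟩
  have kit : ∀ n, ∀ b ∈ l, e^[n] b ∈ l ∧ e^[n] (V_ b.rank) = V_ (e^[n] b).rank ∧
      e^[n] (lev Y b) = lev Y (e^[n] b) := fun n b hb => by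
    induction n with
    | zero => exact ⟨hb, rfl, rfl⟩
    | succ n ih =>
      simp only [iterate_succ_apply', ih.2.1, ih.2.2]
      exact ⟨(key _ ih.1).1, (key _ ih.1).2.2⟩
  have mk : m ∈ k := by
    by_contra h
    obtain ⟨n, hn⟩ := cof m hm
    have := (el.iter n).sub (((hl.mem hm).notMem_iff_subset (hl.mem hk)).1 h) (ord_mem_V hk)
      (ord_mem_V hm) hn
    rw [iterate_fixed (key k hk).2.1] at this
    exact mem_irrefl m this
  have fx : ∀ o : Ordinal.{u}, ∀ x : ZFSet.{u}, x.rank = o → x ∈ V_ k.rank → e x = x := by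
    intro o
    induction o using WellFoundedLT.induction with
    | _ o ih =>
    rintro x rfl hx
    have x1 := tr.mem_trans hx (v1 k hk)
    ext y
    constructor
    · intro hy
      have h0 := mem_of_rank (hl.mem hk) (mem_vonNeumann.1 hx)
      have h1 := (key _ (hl.mem_trans h0 hk)).2.2.1
      rw [fix _ h0, Ordinal.rank_toZFSet] at h1
      have h2 := el.sub (subset_vonNeumann_self x) x1
        (vonNeumann_mem_of_lt (mem_vonNeumann.1 x1)) hy
      rw [h1, mem_vonNeumann] at h2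
      rw [← ih _ h2 y rfl (mem_vonNeumann.2 (h2.trans (mem_vonNeumann.1 hx)))] at hy
      exact (el.mem_iff (mem_vonNeumann.2 (h2.trans (mem_vonNeumann.1 x1))) x1).1 hy
    · intro hy
      have := el.mem hy x1
      rwa [ih _ (rank_lt_of_mem hy) y rfl ((isTransitive_vonNeumann _).mem_trans hy hx)] at this
  have fv : ∀ s ∈ V_ l.rank, ∀ x ∈ V_ k.rank, (x ∈ e s ↔ x ∈ s) := fun s hs x hx => by
    rw [← el.mem_iff (tr.mem_trans hx (v1 k hk)) hs, fx _ x rfl hx]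
  refine ⟨mk, fun x hx => fx _ x rfl hx, ?_⟩
  obtain ⟨G, hG⟩ := exists_surj_of_card_le hY
  have f0 : gr (fun i => G i ∩ V_ k.rank) m ∈ V_ l.rank := mem_vonNeumann.2
    ((rank_le_iff.2 fun z hz => by
      obtain ⟨i, hi, rfl⟩ := mem_img.1 hz
      have h1 := ((rank_lt_of_mem hi).trans (rank_lt_of_mem mk)).le
      rw [lt_succ_iff, pair, rank_pair, rank_singleton, rank_pair]
      exact max_le (succ_le_succ (succ_le_succ h1))
        (succ_le_succ (max_le (succ_le_succ h1) (succ_le_succ (v2 _ _))))).trans_lt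
      (lim _ (lim _ (lim _ (rank_lt_of_mem hk)))))
  have c1 : ∀ s ∈ lev Y (e k), ∃ D, s = e (D ∩ V_ k.rank) := fun s hs => by
    rw [← (key k hk).2.2.2] at hs
    obtain ⟨i, hi, h1⟩ := (el.tf3 (fun T m f => ∀ s, s ∈ T → ∃ i, i ∈ m ∧ pair i s ∈ f) (v3 k hk)
      (ord_mem_V hm) f0).1 (fun s hs => by
        obtain ⟨D, hD, rfl⟩ := mem_img.1 hs
        obtain ⟨i, hi, rfl⟩ := hG D hD
        exact ⟨i, hi, pair_mem_gr.2 ⟨hi, rfl⟩⟩) s hs
    rw [(key k hk).2.1] at hi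
    have h2 := el.pmem (pair_mem_gr.2 ⟨hi, rfl⟩) f0
    rw [fix i ((hl.mem hk).mem_trans hi mk)] at h2
    exact ⟨_, (el.tf1 (fun f => ∀ a y, pair a y ∈ f → ∀ y', pair a y' ∈ f → y = y') f0).1
      (fun a y hy y' hy' => (pair_mem_gr.1 hy).2.symm.trans (pair_mem_gr.1 hy').2) i s h1 _ h2⟩
  have v4 : ∀ b ∈ l, ∀ D : ZFSet.{u}, D ∩ V_ b.rank ∈ V_ l.rank := fun b hb D =>
    mem_vonNeumann.2 ((v2 b D).trans_lt (rank_lt_of_mem hb))
  have c2 : ∀ n, ∀ s, s ∈ lev Y (e^[n + 1] k) → ∀ s', s' ∈ lev Y (e^[n + 1] k) →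
      (∀ x, x ∈ V_ (e^[n] k).rank → (x ∈ s ↔ x ∈ s')) → s = s' := fun n => by
    have := ((el.iter n).tf2 (fun T W => ∀ s, s ∈ T → ∀ s', s' ∈ T →
      (∀ x, x ∈ W → (x ∈ s ↔ x ∈ s')) → s = s') (v3 _ (key k hk).1) (v1 k hk)).1
      fun s hs s' hs' h => by
        obtain ⟨D, rfl⟩ := c1 s hs
        obtain ⟨D', rfl⟩ := c1 s' hs'
        congr 1
        ext x
        by_cases hx : x ∈ V_ k.rank
        · rw [← fv _ (v4 k hk D) x hx, ← fv _ (v4 k hk D') x hx, h x hx]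
        · simp [hx]
    rwa [(kit n _ (key k hk).1).2.2, (kit n k hk).2.1] at this
  have c3 : ∀ D ∈ Y, ∀ D' ∈ Y, (∀ x ∈ V_ k.rank, (x ∈ D ↔ x ∈ D')) →
      ∀ n, ∀ x ∈ V_ (e^[n] k).rank, (x ∈ D ↔ x ∈ D') := fun D hD D' hD' h n => by
    induction n with
    | zero => exact h
    | succ n ih =>
      intro x hx
      have := c2 n _ (mem_img.2 ⟨D, hD, rfl⟩) _ (mem_img.2 ⟨D', hD', rfl⟩) fun y hy => by
        rw [mem_inter, mem_inter, ih y hy]
      simpa only [mem_inter, hx, and_true] using ZFSet.ext_iff.1 this x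
  intro D hD x hx
  obtain ⟨n, hn⟩ := cof _ (union_mem hl (mem_of_rank hl (mem_vonNeumann.1 hx)) hk)
  have h1 := rank_lt_of_mem hn
  have h2 : x ∈ V_ (e^[n] k).rank := mem_vonNeumann.2 (lt_of_le_of_lt
    ((Ordinal.rank_toZFSet x.rank).ge.trans (rank_mono fun _ h => mem_union.2 (Or.inl h))) h1)
  have h3 : V_ k.rank ⊆ V_ (e^[n] k).rank := vonNeumann_subset_of_le
    ((rank_mono fun _ h => mem_union.2 (Or.inr h)).trans h1.le)
  have h4 := (kit n k hk).1
  have h5 : e (D ∩ V_ (e^[n] k).rank) ∈ e (lev Y (e^[n] k)) :=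
    el.mem (mem_img.2 ⟨D, hD, rfl⟩) (v3 _ h4)
  rw [(key _ h4).2.2.2] at h5
  obtain ⟨D', hD', h6⟩ := mem_img.1 h5
  have h7 : ∀ y ∈ V_ (e^[n] k).rank, e y ∈ V_ (e (e^[n] k)).rank ∧ (y ∈ D ↔ e y ∈ D') :=
    fun y hy => by
      have h7 := el.mem hy (v1 _ h4)
      rw [(key _ h4).2.2.1] at h7
      have h8 := el.mem_iff (tr.mem_trans hy (v1 _ h4)) (v4 _ h4 D)
      rw [← h6, mem_inter, mem_inter, and_iff_left h7, and_iff_left hy] at h8
      exact ⟨h7, h8.symm⟩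
  rw [(h7 x h2).2, c3 D hD D' hD' (fun y hy => by rw [(h7 y (h3 hy)).2, fx _ y rfl hy]) (n + 1)]
  rw [iterate_succ_apply']
  exact (h7 x h2).1

theorem Exact1.family {l : ZFSet.{u}} (h : Exact1 l) (h0 : om ∈ l) : Exact l := by
  refine ⟨h.1, fun Y y0 _ y1 y2 => ?_⟩
  have lim : ∀ o < l.rank, succ o < l.rank := fun o ho => by
    obtain ⟨H, h1, h2⟩ := h.seq
    obtain ⟨n, hn⟩ := h2 _ (mem_of_rank h.1 ho)
    exact (succ_le_of_lt (by simpa using rank_lt_of_mem hn)).trans_lt (rank_lt_of_mem (h1 n))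
  let t := (l.rank + Ordinal.omega0).toZFSet
  have t0 : t.IsOrdinal := isOrdinal_toZFSet _
  have t1 : ∀ o < t.rank, succ o < t.rank := fun o ho => by
    rw [Ordinal.rank_toZFSet] at *
    exact (Ordinal.isSuccLimit_add _ Ordinal.isSuccLimit_omega0).succ_lt ho
  have t2 : l ∈ t := (h.1.rank_lt_iff_mem t0).1 (by
    rw [Ordinal.rank_toZFSet]; exact lt_add_of_pos_right _ Ordinal.omega0_pos)
  have m0 : (card Y).ord.toZFSet ∪ om ∈ l := union_mem h.1 (by
    by_contra h1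
    exact y2.not_ge (card_ord' (card Y) ▸
      card_mono (((isOrdinal_toZFSet _).notMem_iff_subset h.1).1 h1))) h0
  generalize hm : (card Y).ord.toZFSet ∪ om = m at m0
  have m1 : card (img (diag t l) Y) ≤ card m := (card_img_le _ _).trans
    (card_ord' (card Y) ▸ card_mono fun x hx => hm ▸ mem_union.2 (Or.inl hx))
  have : Tm Set.univ On (fun _ => t) := Tm.ofOrd t0
  have : Tm Set.univ On (fun _ => l) := Tm.ofOrd h.1
  have : Tm Set.univ On (fun _ => m) := Tm.ofOrd (h.1.mem m0)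
  have : Tm Set.univ On (fun _ => Y) := od_iff.1 y0
  have b0 : gr (fun b => pair m (pair (V_ b.rank) (lev (img (diag t l) Y) b))) l ⊆ V_ l.rank :=
    fun z hz => by
      obtain ⟨b, hb, rfl⟩ := mem_img.1 hz
      refine pair_mem_V lim (ord_mem_V hb) (pair_mem_V lim (ord_mem_V m0) (pair_mem_V lim
        (vonNeumann_mem_of_lt (rank_lt_of_mem hb)) (mem_vonNeumann.2 ((rank_le_iff.2
          fun z hz => ?_).trans_lt (lim _ (rank_lt_of_mem hb))))))
      obtain ⟨D, -, rfl⟩ := mem_img.1 hz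
      exact lt_succ_iff.2 (subset_vonNeumann.1 fun x hx => (mem_inter.1 hx).2)
  obtain ⟨e, k, h1, h2, h3, h4⟩ := h.2 _ (by
    rw [← gr_congr (F := fun b => pair m (pair (vC Set.univ b)
      (img (fun D => D ∩ vC Set.univ b) (img (fun A => diag t l A) Y))))
      fun b hb => by rw [vC_rank (h.1.mem hb)]; rfl]
    exact od_iff.2 inferInstance) b0
  have el := h1.el (isTransitive_vonNeumann _)
  obtain ⟨h5, h6, h7⟩ := fam h.1 lim el m0 m1 h2 h3 h4 fun z hz => (h1.pres (b0 hz)).1 hz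
  have rom : om.{u}.rank = Ordinal.omega0 := Ordinal.rank_toZFSet _
  have k1 : Ordinal.omega0 ≤ k.rank := rom ▸ (rank_mono fun x hx =>
    hm ▸ mem_union.2 (Or.inr hx)).trans (rank_lt_of_mem h5).le
  exact ⟨e, k, fun A hA => emb_of_diag t0 t1 t2 (y1 A hA) (k1.trans (rank_lt_of_mem h2).le)
    (fun x hx => h6 x (vonNeumann_subset_of_le k1 hx)) (fun _ hx _ hy => pair_mem_V lim hx hy)
    el.map (fun _ hx _ hy => el.pair (pair_mem_V lim hx hy))
    (h7 _ (mem_img.2 ⟨A, hA, rfl⟩)), h2, h3, h4⟩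

end Pool.Agent.MP_ecfd11_lc.H13X
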