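import Pool.Agent.MP_ecfd11_lc.H13X.Tree
import Pool.Agent.MP_ecfd11_lc.H13X.Coh
import Pool.Agent.MP_ecfd11_lc.H13X.Diag

/-!
Below a critical point that is strongly measurable in HOD, the exact ordinals are stationary.
-/

set_option synthInstance.maxSize 4000

namespace Pool.Agent.MP_ecfd11_lc.H13X

open Pool.Agent.MP_ecfd11_lc.H20

universe u

open ZFSet Cardinal Order Function

/-- The definable form of: some `e` preserves `B` at `L` above `ω`. -/
def PresI (L B : ZFSet.{u}) : Prop :=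
  ∃ f k : ZFSet.{u}, Ordinal.omega0.toZFSet ∈ k ∧ k ∈ L ∧
    (∀ x, x ∈ vC Set.univ k → app f x = x) ∧
    (∀ X : ZFSet.{u}, k ∈ X → (∀ x, x ∈ X → app f x ∈ X) → ∀ b, b ∈ L → ∃ x, x ∈ X ∧ b ∈ x) ∧
    (∀ x, x ∈ vC Set.univ L → ∀ y, y ∈ vC Set.univ L → pair x y ∈ vC Set.univ L) ∧
    (∀ x, x ∈ vC Set.univ L → app f x ∈ vC Set.univ L) ∧
    (∀ x, x ∈ vC Set.univ L → ∀ y, y ∈ vC Set.univ L →
      app f (pair x y) = pair (app f x) (app f y)) ∧
    ∀ x, x ∈ vC Set.univ L → (x ∈ B ↔ app f x ∈ B)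

instance Df.presI (s t : (ℕ → ZFSet.{u}) → ZFSet.{u}) [Tm Set.univ On s] [Tm Set.univ On t] :
    Df Set.univ On (fun v => PresI (s v) (t v)) :=
  haveI : Df Set.univ On (fun v : ℕ → ZFSet.{u} => PresI (v 0) (v 1)) := by
    unfold PresI; infer_instance
  Df.two PresI s t

theorem Pres.congr {L B k : ZFSet.{u}} {e e' : ZFSet.{u} → ZFSet.{u}} (h : Pres L B k e)
    (he : ∀ x ∈ V_ L.rank, e' x = e x) : Pres L B k e' := by
  have h1 : ∀ n, e'^[n] k = e^[n] k ∧ e^[n] k ∈ V_ L.rank := fun n => by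
    induction n with
    | zero => exact ⟨rfl, ord_mem_V h.mem⟩
    | succ n ih =>
      rw [iterate_succ_apply', iterate_succ_apply', ih.1]
      exact ⟨he _ ih.2, h.map _ ih.2⟩
  refine ⟨h.mem, fun x hx => ?_, fun b hb => (h.cof b hb).imp fun n hn => (h1 n).1 ▸ hn, h.clo,
    fun x hx => he x hx ▸ h.map x hx, fun x hx y hy => ?_, fun x hx => he x hx ▸ h.pre x hx⟩
  · rw [he x (vonNeumann_subset_of_le (rank_lt_of_mem h.mem).le hx), h.fix x hx]
  · rw [he _ (h.clo x hx y hy), he x hx, he y hy, h.com x hx y hy]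

theorem presI_iff {L B : ZFSet.{u}} (hL : L.IsOrdinal) :
    PresI L B ↔ ∃ k e, om ∈ k ∧ Pres L B k e := by
  unfold PresI
  rw [vC_rank hL]
  constructor
  · rintro ⟨f, k, h0, h1, h2, h3, h4, h5, h6, h7⟩
    rw [vC_rank (hL.mem h1)] at h2
    refine ⟨k, app f, h0, h1, h2, fun b hb => ?_, h4, h5, h6, h7⟩
    obtain ⟨x, hx, h8⟩ := h3 (range fun n : ℕ => (app f)^[n] k) (mem_range.2 ⟨0, rfl⟩)
      (fun x hx => by
        obtain ⟨n, rfl⟩ := mem_range.1 hx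
        exact mem_range.2 ⟨n + 1, iterate_succ_apply' _ _ _⟩) b hb
    obtain ⟨n, rfl⟩ := mem_range.1 hx
    exact ⟨n, h8⟩
  · rintro ⟨k, e, h0, h⟩
    have h' : Pres L B k (app (gr e (V_ L.rank))) := h.congr fun _ hx => app_gr hx
    refine ⟨_, k, h0, h'.mem, vC_rank (hL.mem h.mem) ▸ h'.fix, fun X h1 h2 b hb => ?_, h'.clo,
      h'.map, h'.com, h'.pre⟩
    obtain ⟨n, hn⟩ := h'.cof b hb
    refine ⟨_, ?_, hn⟩
    clear hn
    induction n with
    | zero => exact h1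
    | succ n ih => rw [iterate_succ_apply']; exact h2 _ ih

theorem CE.stat_exact {m : Ordinal.{u}} {j : ZFSet.{u} → ZFSet.{u}} {t c : ZFSet.{u}}
    (h : CE m j t) (h0 : om ∈ t) (hs : StronglyMeasurable Set.univ t) (hc : Club t c) :
    ∃ l ∈ c, Exact1 l := by
  by_contra h1
  have : Tm Set.univ On (fun _ => t) := Tm.ofOrd h.ord
  have rom : om.{u}.rank = Ordinal.omega0 := Ordinal.rank_toZFSet _
  obtain ⟨F, f0, f1⟩ := od_choice (C := Set.univ) c
    (fun l A => A ⊆ vC Set.univ l ∧ ¬ PresI l (diag t l A)) fun l hl => by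
      have hlt := hc.1 hl
      have hlo := h.ord.mem hlt
      by_contra h2
      refine h1 ⟨l, hl, hlo, fun A a1 a2 => ?_⟩
      obtain ⟨k, e, k0, hP⟩ := (presI_iff hlo).1
        (by_contra fun h3 => h2 ⟨A, a1, vC_rank hlo ▸ a2, h3⟩)
      have k1 : Ordinal.omega0 ≤ k.rank := rom ▸ (rank_lt_of_mem k0).le
      exact ⟨e, k, emb_of_diag h.ord h.lim hlt a2 (k1.trans (rank_lt_of_mem hP.mem).le)
        (fun x hx => hP.fix x (vonNeumann_subset_of_le k1 hx)) hP.clo hP.map hP.com hP.pre,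
        hP.mem, fun a ha => hP.fix a (ord_mem_V ha), hP.cof⟩
  have := Tm.one (C := Set.univ) (A := On) F
  obtain ⟨k0, hk0, Bs, c', c1, c2⟩ := coh hs (fun _ hx => h.card_lt hx)
    (fun l => diag t l (F l)) fun l hl => diag_subset (h.ord.mem hl)
  obtain ⟨L, hL, l1, k, e, hk, hP⟩ := h.tree h0
    (B := (V_ t.rank).sep fun z => snd z ∈ Bs (fst z)) sep_subset
    ((unc_of_regular hs.1).club_inter hc c1) (union_mem h.ord hk0 h0)
  obtain ⟨l2, l3⟩ := mem_inter.1 hL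
  obtain ⟨i, hi, h2⟩ := c2 L l3 l1
  have h3 : ∀ x, x ⊆ k0 ∪ om → x.rank < k.rank := fun x hx =>
    (rank_mono hx).trans_lt (rank_lt_of_mem hk)
  have i1 : i ∈ V_ k.rank := mem_vonNeumann.2
    ((rank_lt_of_mem hi).trans (h3 k0 fun _ hx => mem_union.2 (Or.inl hx)))
  have i2 : i ∈ V_ L.rank := vonNeumann_subset_of_le (rank_lt_of_mem hP.mem).le i1
  have h4 : ∀ x ∈ V_ L.rank, (x ∈ diag t L (F L) ↔
      pair i x ∈ (V_ t.rank).sep fun z => snd z ∈ Bs (fst z)) := fun x hx => by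
    rw [← h2, mem_inter, mem_sep, fst_pair, snd_pair, and_iff_left hx, and_iff_right
      (vonNeumann_subset_of_le (rank_lt_of_mem (hc.1 l2)).le (hP.clo i i2 x hx))]
  refine (f1 L l2 trivial).2 ((presI_iff l1.1).2 ⟨k, e,
    ((isOrdinal_toZFSet _).rank_lt_iff_mem (l1.1.mem hP.mem)).1
      (h3 _ fun _ hx => mem_union.2 (Or.inr hx)),
    hP.mem, hP.fix, hP.cof, hP.clo, hP.map, hP.com, fun x hx => ?_⟩)
  rw [h4 x hx, h4 _ (hP.map x hx), hP.pre _ (hP.clo i i2 x hx), hP.com i i2 x hx, hP.fix i i1]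

end Pool.Agent.MP_ecfd11_lc.H13X
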