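import Pool.Agent.MP_ecfd11_lc.H13X.Crit

/-!
Reflection of a rank-into-rank embedding, with a predicate, below its critical point.
-/

set_option synthInstance.maxSize 4000

namespace Pool.Agent.MP_ecfd11_lc.H13X

open Pool.Agent.MP_ecfd11_lc.H20

universe u

open ZFSet Cardinal Order Function Filter

/-- `e : V_L → V_L` fixes `V_k`, has a cofinal orbit of `k`, commutes with pairing and
preserves `B`. -/
structure Pres (L B k : ZFSet.{u}) (e : ZFSet.{u} → ZFSet.{u}) : Prop where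
  mem : k ∈ L
  fix : ∀ x ∈ V_ k.rank, e x = x
  cof : ∀ b ∈ L, ∃ n, b ∈ e^[n] k
  clo : ∀ x ∈ V_ L.rank, ∀ y ∈ V_ L.rank, pair x y ∈ V_ L.rank
  map : ∀ x ∈ V_ L.rank, e x ∈ V_ L.rank
  com : ∀ x ∈ V_ L.rank, ∀ y ∈ V_ L.rank, e (pair x y) = pair (e x) (e y)
  pre : ∀ x ∈ V_ L.rank, (x ∈ B ↔ e x ∈ B)

/-- `f` is a function that preserves `B` and commutes with pairing. -/
def Fn (B f : ZFSet.{u}) : Prop :=
  (∀ x y, pair x y ∈ f → ∀ y', pair x y' ∈ f → y' = y) ∧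
  (∀ x y, pair x y ∈ f → (x ∈ B ↔ y ∈ B)) ∧
  ∀ x y, pair x y ∈ f → ∀ x' y', pair x' y' ∈ f → ∀ z w, pair z w ∈ f → z = pair x x' →
    w = pair y y'

/-- `D` is the domain of `f` and `(a, D) ∈ P`. -/
def Nd (P f a D : ZFSet.{u}) : Prop :=
  pair a D ∈ P ∧ (∀ x, x ∈ D → ∃ y, pair x y ∈ f) ∧ ∀ x y, pair x y ∈ f → x ∈ D

/-- One step in the tree of attempts to build an embedding. -/
def Child (B P f f' : ZFSet.{u}) : Prop :=
  ∃ a a', pair a a' ∈ f' ∧ ∃ D, pair a D ∈ P ∧ ∃ D', pair a' D' ∈ P ∧ Nd P f a D ∧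
    Nd P f' a' D' ∧ a ∈ a' ∧ f ⊆ f' ∧ f ⊆ D' ∧ Fn B f'

section

variable {M : ZFSet.{u}} [Fact M.IsTransitive]

instance E.fn (b i : ℕ) : E M fun v => Fn (v b) (v i) := by unfold Fn; infer_instance

instance E.nd (p i a d : ℕ) : E M fun v => Nd (v p) (v i) (v a) (v d) := by
  unfold Nd; infer_instance

instance E.child (b p i k : ℕ) : E M fun v => Child (v b) (v p) (v i) (v k) := by
  unfold Child; infer_instance

end

theorem nat_mem_om (n : ℕ) : nat.{u} n ∈ om :=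
  Ordinal.toZFSet_mem_toZFSet_iff.2 (Ordinal.natCast_lt_omega0 n)

theorem mem_om_nat {x : ZFSet.{u}} (h : x ∈ om) : ∃ n, nat n = x := by
  obtain ⟨o, ho, rfl⟩ := Ordinal.mem_toZFSet_iff.1 h
  obtain ⟨n, rfl⟩ := Ordinal.lt_omega0.1 ho
  exact ⟨n, rfl⟩

namespace CE

variable {m : Ordinal.{u}} {j : ZFSet.{u} → ZFSet.{u}} {t X : ZFSet.{u}} (h : CE m j t)
include h

theorem Nn_mem (n : ℕ) : j^[n] (V_ t.rank) ∈ V_ m := (h.el.iter n).map _ h.N_mem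

theorem Nn_tr (n : ℕ) : (j^[n] (V_ t.rank)).IsTransitive :=
  ((h.el.iter n).tf1 (fun N => N.IsTransitive) h.N_mem).1 (isTransitive_vonNeumann _)

theorem Nn_succ (n : ℕ) : j^[n] (V_ t.rank) ∈ j^[n + 1] (V_ t.rank) :=
  (h.el.iter n).mem h.N_mem_j (h.el.map _ h.N_mem)

theorem Nn_mono {n k : ℕ} (hk : n ≤ k) : j^[n] (V_ t.rank) ⊆ j^[k] (V_ t.rank) :=
  monotone_nat_of_le_succ (f := fun n => j^[n] (V_ t.rank))
    (fun n => (h.Nn_tr _).subset_of_mem (h.Nn_succ n)) hk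

theorem sub_M (n : ℕ) {Y : ZFSet.{u}} (hY : Y ⊆ j^[n] (V_ t.rank)) : Y ∈ V_ m :=
  mem_vonNeumann.2 ((rank_mono hY).trans_lt (mem_vonNeumann.1 (h.Nn_mem n)))

theorem Nn_sub (n : ℕ) {x y : ZFSet.{u}} (hx : x ∈ j^[n] (V_ t.rank)) (hy : y ⊆ x) :
    y ∈ j^[n] (V_ t.rank) :=
  ((h.el.iter n).tfA1 (fun N y => ∀ x, x ∈ N → y ⊆ x → y ∈ N) h.N_mem).1
    (fun _ _ _ hx hy => mem_vonNeumann.2 ((rank_mono hy).trans_lt (mem_vonNeumann.1 hx))) y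
    (h.sub_M n fun _ hz => (h.Nn_tr n).mem_trans (hy hz) hx) x hx hy

theorem Nn_pair (n : ℕ) {x y : ZFSet.{u}} (hx : x ∈ j^[n] (V_ t.rank))
    (hy : y ∈ j^[n] (V_ t.rank)) : pair x y ∈ j^[n] (V_ t.rank) := by
  obtain ⟨z, hz, rfl⟩ := ((h.el.iter n).tf1
    (fun N => ∀ x, x ∈ N → ∀ y, y ∈ N → ∃ z, z ∈ N ∧ z = pair x y) h.N_mem).1
    (fun _ hx _ hy => ⟨_, pair_mem_V h.lim hx hy, rfl⟩) x hx y hy
  exact hz

theorem iter_sub (hX : X ⊆ V_ t.rank) (n : ℕ) : j^[n] X ⊆ j^[n] (V_ t.rank) :=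
  (h.el.iter n).sub hX (h.of_sub hX) h.N_mem

theorem iter_iff (hX : X ⊆ V_ t.rank) {n k : ℕ} (hk : n ≤ k) {x : ZFSet.{u}}
    (hx : x ∈ j^[n] (V_ t.rank)) : x ∈ j^[k] X ↔ x ∈ j^[n] X := by
  induction k, hk using Nat.le_induction with
  | base => rfl
  | succ k hk ih =>
    rw [← ih]
    exact ((h.el.iter k).tf3 (fun N X Y => ∀ x, x ∈ N → (x ∈ Y ↔ x ∈ X)) h.N_mem (h.of_sub hX)
      (h.el.map _ (h.of_sub hX))).1 (fun x hx => by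
        rw [← h.el.mem_iff (h.of_mem hx) (h.of_sub hX), h.fixN x hx]) x (h.Nn_mono hk hx)

theorem gr_sub_succ (n : ℕ) : gr j (j^[n] (V_ t.rank)) ⊆ j^[n + 1] (V_ t.rank) := fun z hz => by
  obtain ⟨x, hx, rfl⟩ := mem_img.1 hz
  refine h.Nn_pair _ (h.Nn_mono (Nat.le_succ n) hx) ?_
  rw [iterate_succ_apply']
  exact h.el.mem hx (h.Nn_mem n)

theorem jt_sub : j t ⊆ j^[1] (V_ t.rank) :=
  h.el.sub (fun _ ha => ord_mem_V ha) h.mem h.N_mem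

/-- Ordinals of size at most `|V_t|` are below `j t`. -/
theorem mem_jt {o : ZFSet.{u}} (ho : o.IsOrdinal) (G : ZFSet.{u} → ZFSet.{u})
    (hG : ∀ b ∈ o, ∃ x ∈ V_ t.rank, G x = b) : o ∈ j t := by
  classical
  have hj := h.el.ord h.ord h.mem
  by_contra h1
  rw [ho.notMem_iff_subset hj] at h1
  have s1 : gr (fun x => if G x ∈ j t then G x else t) (V_ t.rank) ⊆ j^[1] (V_ t.rank) :=
    fun z hz => by
      obtain ⟨x, hx, rfl⟩ := mem_img.1 hz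
      refine h.Nn_pair 1 (h.Nn_mono (Nat.zero_le 1) hx) (h.jt_sub ?_)
      dsimp only
      split_ifs with e
      exacts [e, h.mem_j]
  refine (h.el.tfA (fun v s => ∀ x, x ∈ v 0 →
      (∀ a y, pair a y ∈ s → ∀ y', pair a y' ∈ s → y' = y) →
      ¬ ∀ b, b ∈ v 1 → ∃ a, a ∈ x ∧ pair a b ∈ s) (cons (V_ t.rank) fun _ => t)
    (cons_in h.N_mem fun _ => h.mem)).1 (fun s _ x hx h2 h3 => ?_) _ (h.sub_M 1 s1) _ h.N_mem_j
    (fun a y h2 y' h3 => (pair_mem_gr.1 h3).2.symm.trans (pair_mem_gr.1 h2).2) fun b hb => ?_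
  · refine (h.card_lt hx).not_ge (card_le_of_surj (app s) fun b hb => ?_)
    obtain ⟨a, ha, h4⟩ := h3 b hb
    exact ⟨a, ha, app_eq h4 (h2 a b h4)⟩
  · obtain ⟨x, hx, rfl⟩ := hG b (h1 hb)
    exact ⟨x, hx, pair_mem_gr.2 ⟨hx, if_pos hb⟩⟩

section

variable {B C : ZFSet.{u}} (h0 : om ∈ t) (hB : B ⊆ V_ t.rank) (hC : Club t C)
include h0 hB hC

theorem chain_child (n : ℕ) : Child (j^[n + 3] B) (j^[n + 3] (gr (fun a => V_ a.rank) C))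
    (gr j (j^[n] (V_ t.rank))) (gr j (j^[n + 1] (V_ t.rank))) := by
  have hP := h.gr_sub hC.1
  have p1 : ∀ n, pair (j^[n] t) (j^[n] (V_ t.rank)) ∈ j^[n + 1] (gr (fun a => V_ a.rank) C) :=
    fun n => (h.el.iter n).pmem (h.top_mem hC ⟨_, h0⟩) (h.el.map _ (h.of_sub hP))
  have p2 : ∀ k, k ≤ n + 1 → Nd (j^[n + 3] (gr (fun a => V_ a.rank) C))
      (gr j (j^[k] (V_ t.rank))) (j^[k] t) (j^[k] (V_ t.rank)) := fun k hk =>
    ⟨(h.iter_iff hP (by omega) (h.iter_sub hP _ (p1 k))).2 (p1 k),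
      fun _ hx => ⟨_, pair_mem_gr.2 ⟨hx, rfl⟩⟩, fun _ _ hx => (pair_mem_gr.1 hx).1⟩
  have p3 : ∀ x ∈ j^[n + 1] (V_ t.rank), x ∈ V_ m := fun x hx =>
    h.el.tr.mem_trans hx (h.Nn_mem _)
  refine ⟨j^[n] t, j^[n + 1] t, pair_mem_gr.2 ⟨fst_in (h.Nn_tr _) (h.iter_sub hP _ (p1 n)),
    (iterate_succ_apply' j n t).symm⟩, _, (p2 n n.le_succ).1, _, (p2 _ le_rfl).1, p2 n n.le_succ,
    p2 _ le_rfl, (h.el.iter n).mem h.mem_j (h.el.map _ h.mem), fun z hz => ?_, h.gr_sub_succ n,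
    fun x y h1 y' h2 => (pair_mem_gr.1 h2).2.symm.trans (pair_mem_gr.1 h1).2,
    fun x y h1 => ?_, fun x y h1 x' y' h2 z w h3 e => ?_⟩
  · obtain ⟨x, hx, rfl⟩ := mem_img.1 hz
    exact pair_mem_gr.2 ⟨h.Nn_mono (Nat.le_succ n) hx, rfl⟩
  · have h3 := snd_in (h.Nn_tr _) (h.gr_sub_succ _ h1)
    obtain ⟨h2, rfl⟩ := pair_mem_gr.1 h1
    rw [h.iter_iff hB (by omega) h2, h.iter_iff hB (by omega) h3, iterate_succ_apply' j (n + 1),
      h.el.mem_iff (p3 x h2) ((h.el.iter _).map _ (h.of_sub hB))]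
  · obtain ⟨-, rfl⟩ := pair_mem_gr.1 h1
    obtain ⟨-, rfl⟩ := pair_mem_gr.1 h2
    obtain ⟨h4, rfl⟩ := pair_mem_gr.1 h3
    subst e
    exact h.el.pair (p3 _ h4)

/-- The tree of attempts has an infinite branch. -/
theorem branch {g : ZFSet.{u}} (hg : g ∈ t) : ∃ F : ℕ → ZFSet.{u},
    (∀ x y, pair x y ∈ F 0 → x = y) ∧ pair g g ∈ F 0 ∧
      ∀ n, F (n + 1) ∈ V_ t.rank ∧ Child B (gr (fun a => V_ a.rank) C) (F n) (F (n + 1)) := by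
  by_contra hn
  have hP := h.gr_sub hC.1
  obtain ⟨P, eP⟩ : ∃ P, P = gr (fun a => V_ a.rank) C := ⟨_, rfl⟩
  have hc := h.chain_child h0 hB hC
  rw [← eP] at hn hP hc
  let r : ZFSet.{u} → ZFSet.{u} → Prop := fun f' f => f' ∈ V_ t.rank ∧ Child B P f f'
  let pred : ZFSet.{u} → ZFSet.{u} := fun f => (V_ t.rank).sep fun f' => Child B P f f' ∧ Acc r f
  have wf : WellFounded fun y x => y ∈ pred x := ⟨fun x => by
    by_cases h1 : Acc r x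
    · exact Subrelation.accessible (r := r)
        (fun hy => ⟨(mem_sep.1 hy).1, (mem_sep.1 hy).2.1⟩) h1
    · exact ⟨_, fun y hy => absurd (mem_sep.1 hy).2.2 h1⟩⟩
  obtain ⟨H, hH⟩ := exists_rec pred wf fun _ g => img snd g
  simp only [snd_gr] at hH
  have h1 : ∀ x, ∀ o < rank (H x), ∃ z ∈ V_ t.rank, rank (H z) = o := fun x => by
    induction x using wf.induction with
    | _ x ih =>
      intro o ho
      rw [hH] at ho
      obtain ⟨_, hy, h2⟩ := lt_rank_iff.1 ho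
      obtain ⟨y, hy', rfl⟩ := mem_img.1 hy
      rcases h2.eq_or_lt with h2 | h2
      exacts [⟨y, (mem_sep.1 hy').1, h2.symm⟩, ih y hy' o h2]
  have h2 : ∀ x, (rank (H x)).toZFSet ∈ j^[1] (V_ t.rank) := fun x => h.jt_sub
    (h.mem_jt (isOrdinal_toZFSet _) (fun z => (rank (H z)).toZFSet) fun b hb => by
      obtain ⟨o, ho, rfl⟩ := Ordinal.mem_toZFSet_iff.1 hb
      obtain ⟨z, hz, rfl⟩ := h1 x o ho
      exact ⟨z, hz, rfl⟩)
  obtain ⟨R, eR⟩ : ∃ R, R = gr (fun z => (rank (H z)).toZFSet) ((V_ t.rank).sep (Acc r)) :=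
    ⟨_, rfl⟩
  have r0 : ∀ f y, pair f y ∈ R ↔ (f ∈ V_ t.rank ∧ Acc r f) ∧ (rank (H f)).toZFSet = y :=
    fun f y => by rw [eR, pair_mem_gr, mem_sep]
  have r1 : R ∈ V_ m := h.sub_M 1 fun z hz => by
    obtain ⟨x, hx, rfl⟩ := mem_img.1 (eR ▸ hz)
    exact h.Nn_pair 1 (h.Nn_mono (Nat.zero_le 1) (mem_sep.1 hx).1) (h2 x)
  have c1 : ∀ n, gr j (j^[n] (V_ t.rank)) ∈ j^[n + 2] (V_ t.rank) := fun n =>
    h.Nn_sub _ (h.Nn_succ (n + 1)) (h.gr_sub_succ n)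
  have g0 : gr j (j^[1] (V_ t.rank)) ∈ V_ m := h.sub_M 2 (h.gr_sub_succ 1)
  have q1 : ∃ y, pair (gr j (j^[0] (V_ t.rank))) y ∈ j^[0 + 2] R := by
    refine ((h.el.iter 2).tf3 (fun N R g => ∀ f, f ∈ N → (∀ x y, pair x y ∈ f → x = y) →
      pair g g ∈ f → ∃ y, pair f y ∈ R) h.N_mem r1 (h.of_mem (ord_mem_V hg))).1
      (fun f hf h3 h4 => ⟨_, (r0 f _).2 ⟨⟨hf, by_contra fun h5 => ?_⟩, rfl⟩⟩) _ (c1 0)
      (fun x y hy => ?_) ?_
    · obtain ⟨F, rfl, h6⟩ := not_acc_iff_exists_descending_chain.1 h5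
      exact hn ⟨F, h3, h4, h6⟩
    · obtain ⟨h3, rfl⟩ := pair_mem_gr.1 hy
      exact (h.fixN x h3).symm
    · rw [iterate_fixed (h.fix g hg)]
      exact pair_mem_gr.2 ⟨ord_mem_V hg, h.fix g hg⟩
  have q2 : ∀ n x, pair (gr j (j^[n] (V_ t.rank))) x ∈ j^[n + 2] R →
      ∃ y x', pair x y ∈ j^[n + 2] (gr j (j^[1] (V_ t.rank))) ∧ x' ∈ y ∧
        pair (gr j (j^[n + 1] (V_ t.rank))) x' ∈ j^[n + 1 + 2] R := fun n x hx => by
    obtain ⟨y, h3, h4⟩ := ((h.el.iter (n + 2)).tf3 (fun R R' G => ∀ f x, pair f x ∈ R →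
      ∃ y, pair x y ∈ G ∧ pair f y ∈ R') r1 (h.el.map _ r1) g0).1 (fun f x hx => by
        have h3 := h.el.pmem hx r1
        obtain ⟨h4, rfl⟩ := (r0 f x).1 hx
        rw [h.fixN f h4.1] at h3
        exact ⟨_, pair_mem_gr.2 ⟨h2 f, rfl⟩, h3⟩) _ x hx
    obtain ⟨x', h5, h6⟩ := ((h.el.iter (n + 3)).tf4 (fun N B P R => ∀ f y, pair f y ∈ R →
      ∀ f', f' ∈ N → Child B P f f' → ∃ y', pair f' y' ∈ R ∧ y' ∈ y) h.N_mem (h.of_sub hB)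
      (h.of_sub hP) r1).1 (fun f y hy f' hf' h5 => by
        obtain ⟨h6, rfl⟩ := (r0 f y).1 hy
        refine ⟨_, (r0 f' _).2 ⟨⟨hf', h6.2.inv ⟨hf', h5⟩⟩, rfl⟩,
          Ordinal.toZFSet_mem_toZFSet_iff.2 (rank_lt_of_mem ?_)⟩
        rw [hH f]
        exact mem_img.2 ⟨f', mem_sep.2 ⟨hf', h5, h6.2⟩, rfl⟩) _ y h4 _ (c1 (n + 1)) (hc n)
    exact ⟨y, x', h3, h6, h5⟩
  choose! Y S s1 s2 s3 using q2
  obtain ⟨x0, hx0⟩ := q1
  let x : ℕ → ZFSet.{u} := fun n => Nat.rec x0 S n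
  have x1 : ∀ n, pair (gr j (j^[n] (V_ t.rank))) (x n) ∈ j^[n + 2] R := fun n => by
    induction n with
    | zero => exact hx0
    | succ n ih => exact s3 n _ ih
  exact h.wf ⟨2, x, fun n => Y n (x n), fun n => ⟨⟨_, g0, fun z hz =>
    (mem_img.1 hz).imp fun _ ha => ha.2.symm, s1 n _ (x1 n)⟩, s2 n _ (x1 n)⟩⟩

end

theorem tree {B C g : ZFSet.{u}} (h0 : om ∈ t) (hB : B ⊆ V_ t.rank) (hC : Club t C)
    (hg : g ∈ t) : ∃ L ∈ C, CofOmega Set.univ L ∧ ∃ k e, g ∈ k ∧ Pres L B k e := by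
  obtain ⟨F, r3, r4, f1⟩ := h.branch h0 hB hC hg
  have f2 := fun n => (f1 n).2
  choose a a' a1 D _ D' _ a2 a3 a4 a5 a6 a7 using f2
  have b1 := fun n => pair_mem_gr.1 (a2 n).1
  have b2 := fun n => pair_mem_gr.1 (a3 n).1
  have o1 : ∀ n, (a n).IsOrdinal := fun n => h.ord.mem (hC.1 (b1 n).1)
  have b3 : ∀ n, D' n = D (n + 1) := fun n => ZFSet.ext fun x =>
    ⟨fun hx => ((a3 n).2.1 x hx).elim fun y => (a2 _).2.2 x y,
      fun hx => ((a2 _).2.1 x hx).elim fun y => (a3 n).2.2 x y⟩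
  have b4 : ∀ n, a' n = a (n + 1) := fun n => by
    have := congrArg rank ((b2 n).2.trans ((b3 n).trans (b1 _).2.symm))
    rwa [rank_vonNeumann, rank_vonNeumann, (h.ord.mem (hC.1 (b2 n).1)).rank_inj (o1 _)] at this
  simp only [b4] at a1 a4
  let U : ZFSet.{u} := ⋃₀ range F
  have u1 : ∀ n z, z ∈ F n → z ∈ U := fun n z hz => mem_sUnion.2 ⟨_, mem_range.2 ⟨n, rfl⟩, hz⟩
  have u2 : ∀ z, z ∈ U → ∀ᶠ k in atTop, z ∈ F (k + 1) := fun z hz => by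
    obtain ⟨_, h1, h2⟩ := mem_sUnion.1 hz
    obtain ⟨n, rfl⟩ := mem_range.1 h1
    exact eventually_atTop.2 ⟨n, fun k hk =>
      monotone_nat_of_le_succ (f := F) a5 (hk.trans (Nat.le_succ k)) h2⟩
  have u3 : ∀ x y, pair x y ∈ U → app U x = y := fun x y h1 => app_eq h1 fun y' h2 => by
    obtain ⟨k, h3, h4⟩ := ((u2 _ h1).and (u2 _ h2)).exists
    exact (a7 k).1 x y h3 y' h4
  let L : ZFSet.{u} := ⋃₀ range a
  have l1 : ∀ x, x ∈ L ↔ ∃ n, x ∈ a n := fun x => by simp [L]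
  have l2 : ∀ n, a n ∈ L := fun n => (l1 _).2 ⟨_, a4 n⟩
  have l3 : L.IsOrdinal := isOrdinal_sUnion fun y hy => by
    obtain ⟨n, rfl⟩ := mem_range.1 hy
    exact o1 n
  have l4 : ∀ o < L.rank, ∃ n, o < (a n).rank := fun o ho =>
    ((l1 _).1 (mem_of_rank l3 ho)).imp fun n hn => by
      simpa using rank_lt_of_mem hn
  have l5 : ∀ x ∈ V_ L.rank, pair x (app U x) ∈ U ∧ app U x ∈ V_ L.rank := fun x hx => by
    obtain ⟨n, hn⟩ := l4 _ (mem_vonNeumann.1 hx)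
    obtain ⟨y, hy⟩ := (a2 n).2.1 x ((b1 n).2 ▸ mem_vonNeumann.2 hn)
    rw [u3 x y (u1 n _ hy)]
    have h1 := a6 n hy
    rw [b3, ← (b1 _).2] at h1
    exact ⟨u1 n _ hy, vonNeumann_subset_of_le (rank_lt_of_mem (l2 _)).le
      (snd_in (isTransitive_vonNeumann _) h1)⟩
  have l6 : L ∈ t := by
    obtain ⟨c, c1, c2⟩ := (unc_of_regular (h.regular h0)).2 (range a) (fun z hz => by
      obtain ⟨n, rfl⟩ := mem_range.1 hz
      exact hC.1 (b1 n).1) (by rw [card_om]; simpa using lift_card_range_le (f := a))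
    refine l3.mem_of_subset_of_mem h.ord (fun z hz => ?_) c1
    obtain ⟨n, hn⟩ := (l1 z).1 hz
    exact (h.ord.mem c1).mem_trans hn (c2 _ (mem_range.2 ⟨n, rfl⟩))
  have l7 : ∀ x ∈ V_ L.rank, ∀ y ∈ V_ L.rank, pair x y ∈ V_ L.rank := fun x hx y hy =>
    pair_mem_V (fun o ho => (l4 o ho).elim fun n hn =>
      (succ_le_of_lt hn).trans_lt (rank_lt_of_mem (l2 n))) hx hy
  refine ⟨L, hC.2.2 L l6 ⟨_, l2 0⟩ fun b hb => ((l1 b).1 hb).elim fun n hn =>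
    ⟨_, (b1 n).1, hn, l2 n⟩, ?_, a 0, app U, ?_, l2 0, fun x hx => ?_, fun b hb => ?_, l7,
    fun x hx => (l5 x hx).2, fun x hx y hy => ?_, fun x hx => ?_⟩
  · choose! G hG using fun x : ZFSet.{u} => mem_om_nat (x := x)
    refine ⟨l3, gr (fun x => a (G x)) om, trivial, isFunc_gr fun _ _ => l2 _, fun b hb => ?_⟩
    obtain ⟨n, hn⟩ := (l1 b).1 hb
    exact ⟨nat n, _, pair_mem_gr.2 ⟨nat_mem_om n, rfl⟩,
      by rwa [nat_inj.1 (hG _ (nat_mem_om n))]⟩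
  · have h1 := (a2 0).2.2 g g r4
    rw [← (b1 0).2, mem_vonNeumann] at h1
    exact ((h.ord.mem hg).rank_lt_iff_mem (o1 0)).1 h1
  · obtain ⟨y, hy⟩ := (a2 0).2.1 x ((b1 0).2 ▸ hx)
    rw [u3 x y (u1 0 _ hy), r3 x y hy]
  · refine ((l1 b).1 hb).imp fun n hn => ?_
    have : ∀ n, (app U)^[n] (a 0) = a n := fun n => by
      induction n with
      | zero => rfl
      | succ n ih => rw [iterate_succ_apply', ih, u3 _ _ (u1 _ _ (a1 n))]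
    rwa [this]
  · obtain ⟨k, h1, h2, h3⟩ := ((u2 _ (l5 x hx).1).and ((u2 _ (l5 y hy).1).and
      (u2 _ (l5 _ (l7 x hx y hy)).1))).exists
    exact (a7 k).2.2 _ _ h1 _ _ h2 _ _ h3 rfl
  · obtain ⟨k, h1⟩ := (u2 _ (l5 x hx).1).exists
    exact (a7 k).2.1 _ _ h1

end CE

end Pool.Agent.MP_ecfd11_lc.H13X
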